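import Pool.Agent.Q299.JN.Gp2
import Pool.Agent.Q299.TD.Reached

/-!
# A class of valuations which is closed under joins, composition and towers without defect
-/

set_option autoImplicit false

universe u v

namespace Pool.Agent.Q299.JN

open IsLocalRing Pool.Agent.W418.LU2 Pool.Agent.TH188.QS Pool.Agent.H176.DT MvPolynomial
open Pool.Agent.Q299.TD (AllGP IsFinitelyGenerated IsModel exists_model su_of_gp gp_of_su noe)

section join

variable {k E₁ E₂ K : Type u} [Field k] [PerfectField k] [Field E₁] [Field E₂] [Field K]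

omit [PerfectField k] in
/-- The join of two rings of finite type. -/
lemma ja_eq (ρ₁ : k →+* E₁) (ρ₂ : k →+* E₂) (j₁ : E₁ →+* K) (j₂ : E₂ →+* K)
    (hC : ∀ c, j₁ (ρ₁ c) = j₂ (ρ₂ c)) (U₁ : Set E₁) (U₂ : Set E₂) :
    JA j₁ j₂ (Subring.closure ((ρ₁.range : Set E₁) ∪ U₁))
      (Subring.closure ((ρ₂.range : Set E₂) ∪ U₂)) =
    Subring.closure ((((j₁.comp ρ₁).range : Subring K) : Set K) ∪ (j₁ '' U₁ ∪ j₂ '' U₂)) := by
  have h1 : j₁ '' (ρ₁.range : Set E₁) = ((j₁.comp ρ₁).range : Set K) := by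
    ext z
    constructor
    · rintro ⟨_, ⟨c, rfl⟩, rfl⟩
      exact ⟨c, rfl⟩
    · rintro ⟨c, rfl⟩
      exact ⟨_, ⟨c, rfl⟩, rfl⟩
  have h2 : j₂ '' (ρ₂.range : Set E₂) = ((j₁.comp ρ₁).range : Set K) := by
    ext z
    constructor
    · rintro ⟨_, ⟨c, rfl⟩, rfl⟩
      exact ⟨c, hC c⟩
    · rintro ⟨c, rfl⟩
      exact ⟨_, ⟨c, rfl⟩, (hC c).symm⟩
  rw [JA, RingHom.map_closure, RingHom.map_closure, Set.image_union, Set.image_union, h1, h2,
    Subring.closure_union, Subring.closure_eq, Subring.closure_eq]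
  apply le_antisymm
  · apply sup_le
    · exact Subring.closure_mono (Set.union_subset_union_right _ Set.subset_union_left)
    · exact Subring.closure_mono (Set.union_subset_union_right _ Set.subset_union_right)
  · rw [Subring.closure_le]
    rintro z (hz | hz | hz)
    · exact SetLike.le_def.1 le_sup_left (Subring.subset_closure (Or.inl hz))
    · exact SetLike.le_def.1 le_sup_left (Subring.subset_closure (Or.inr hz))
    · exact SetLike.le_def.1 le_sup_right (Subring.subset_closure (Or.inr hz))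

/-- Joins are in general position on all models. -/
theorem allGP_join (ρ₁ : k →+* E₁) (ρ₂ : k →+* E₂) (j₁ : E₁ →+* K) (j₂ : E₂ →+* K)
    (hC : ∀ c, j₁ (ρ₁ c) = j₂ (ρ₂ c)) (V : ValuationSubring K) (hJ : IsJn ρ₂ j₁ j₂ V)
    (hE₁ : IsFinitelyGenerated ρ₁) (hE₂ : IsFinitelyGenerated ρ₂)
    (h₁ : AllGP ρ₁ (V.comap j₁)) (h₂ : AllGP ρ₂ (V.comap j₂)) : AllGP (j₁.comp ρ₁) V := by
  classical
  intro T hT hM
  obtain ⟨S₁, hS₁, hSE₁⟩ := hE₁
  obtain ⟨S₂, hS₂, hSE₂⟩ := hE₂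
  have hρ₁ : ∀ a, ρ₁ a ∈ V.comap j₁ := fun a => hM.1 (Subring.subset_closure (Or.inl ⟨a, rfl⟩))
  have hρ₂ : ∀ a, ρ₂ a ∈ V.comap j₂ := fun a =>
    hM.1 (Subring.subset_closure (Or.inl ⟨a, hC a⟩))
  obtain ⟨U₁, hU₁, hM₁⟩ := exists_model ρ₁ hS₁ hSE₁ (V.comap j₁) hρ₁
  obtain ⟨U₂, hU₂, hM₂⟩ := exists_model ρ₂ hS₂ hSE₂ (V.comap j₂) hρ₂
  have hN₁ : IsNoetherianRing (Subring.closure ((ρ₁.range : Set E₁) ∪ U₁)) :=
    noe (hj_field (k := k)) ρ₁ hU₁
  have hN₂ : IsNoetherianRing (Subring.closure ((ρ₂.range : Set E₂) ∪ U₂)) :=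
    noe (hj_field (k := k)) ρ₂ hU₂
  have hgp := join_gp ρ₁ ρ₂ j₁ j₂ hC V hJ hU₁ hU₂ hM₁.1 hM₂.1 (su_of_gp hM₁ (h₁ U₁ hU₁ hM₁))
    (su_of_gp hM₂ (h₂ U₂ hU₂ hM₂))
  set A₁ := Subring.closure ((ρ₁.range : Set E₁) ∪ U₁) with hA₁
  set A₂ := Subring.closure ((ρ₂.range : Set E₂) ∪ U₂) with hA₂
  have heq := ja_eq ρ₁ ρ₂ j₁ j₂ hC U₁ U₂
  rw [← hA₁, ← hA₂] at heq
  set U : Set K := j₁ '' U₁ ∪ j₂ '' U₂ with hU
  have hUf : U.Finite := (hU₁.image _).union (hU₂.image _)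
  have hUV : ∀ u ∈ U, u ∈ V := by
    rintro _ (⟨u, hu, rfl⟩ | ⟨u, hu, rfl⟩)
    · exact hM₁.1 (Subring.subset_closure (Or.inr hu))
    · exact hM₂.1 (Subring.subset_closure (Or.inr hu))
  set A₀ := Subring.closure ((((j₁.comp ρ₁).range : Subring K) : Set K) ∪ U) with hA₀
  have hV₀ : A₀ ≤ V.toSubring := by
    rw [hA₀, Subring.closure_le]
    rintro z (⟨c, rfl⟩ | hz)
    · exact hρ₁ c
    · exact hUV z hz
  -- the ring `A₀` is a model
  have hsub : JR j₁ j₂ ≤ (Subfield.closure (A₀ : Set K)).toSubring := by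
    rw [Subring.closure_le]
    rintro _ (⟨e, rfl⟩ | ⟨e, rfl⟩)
    · obtain ⟨a, ha, b, hb, -, h⟩ := hM₁.2 e
      change j₁ e ∈ Subfield.closure (A₀ : Set K)
      rw [h, map_mul, map_inv₀]
      refine Subfield.mul_mem _ (Subfield.subset_closure ?_) (Subfield.inv_mem _
        (Subfield.subset_closure ?_))
      · rw [SetLike.mem_coe, ← heq]
        exact Subring.subset_closure (Or.inl ⟨a, ha, rfl⟩)
      · rw [SetLike.mem_coe, ← heq]
        exact Subring.subset_closure (Or.inl ⟨b, hb, rfl⟩)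
    · obtain ⟨a, ha, b, hb, -, h⟩ := hM₂.2 e
      change j₂ e ∈ Subfield.closure (A₀ : Set K)
      rw [h, map_mul, map_inv₀]
      refine Subfield.mul_mem _ (Subfield.subset_closure ?_) (Subfield.inv_mem _
        (Subfield.subset_closure ?_))
      · rw [SetLike.mem_coe, ← heq]
        exact Subring.subset_closure (Or.inr ⟨a, ha, rfl⟩)
      · rw [SetLike.mem_coe, ← heq]
        exact Subring.subset_closure (Or.inr ⟨b, hb, rfl⟩)
  have hM₀ : Mod V A₀ := by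
    refine ⟨hV₀, fun z => ?_⟩
    have h1 : z ∈ Subfield.closure (A₀ : Set K) := by
      obtain ⟨a, ha, b, hb, -, h⟩ := hJ.fr z
      rw [h]
      exact Subfield.mul_mem _ (hsub ha) (Subfield.inv_mem _ (hsub hb))
    obtain ⟨a, ha, b, hb, h⟩ := Subfield.mem_closure_iff.1 h1
    rw [Subring.closure_eq] at ha hb
    by_cases hb0 : b = 0
    · refine ⟨0, A₀.zero_mem, 1, A₀.one_mem, one_ne_zero, ?_⟩
      rw [← h, hb0, div_zero, zero_mul]
    · exact ⟨a, ha, b, hb, hb0, by rw [← h, div_eq_mul_inv]⟩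
  have hN₀ : IsNoetherianRing A₀ := noe (hj_field (k := k)) (j₁.comp ρ₁) hUf
  rw [heq] at hgp
  have hSU₀ : SU V A₀ := su_of_gp hM₀ hgp
  have h1 := (p_move V A₀ hM₀ T hT fun t ht => hM.1 (Subring.subset_closure (Or.inr ht))).1 hSU₀
  have h2 : Subring.closure ((A₀ : Set K) ∪ T) = Subring.closure
      ((Subring.closure ((((j₁.comp ρ₁).range : Subring K) : Set K) ∪ T) : Set K) ∪ U) := by
    rw [hA₀, closure_closure_union, closure_closure_union]
    congr 1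
    ext z
    simp only [Set.mem_union]
    tauto
  rw [h2] at h1
  exact gp_of_su ((p_move V _ hM U hUf hUV).2 h1)

end join

end Pool.Agent.Q299.JN
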