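import Pool.Agent.Q299.JN.Minor

/-!
# The Jacobian matrix of a factor
-/

set_option autoImplicit false

universe u v

namespace Pool.Agent.Q299.JN

open IsLocalRing Pool.Agent.W418.LU2 Pool.Agent.TH188.QS MvPolynomial

section cen

variable {S F : Type u} [CommRing S] [Field F] (V : ValuationSubring F) (φ : S →+* F)

/-- The centre of the valuation ring on `S`. -/
def cen (hφV : ∀ s, φ s ∈ V) : Ideal S :=
  (maximalIdeal V).comap (φ.codRestrict V.toSubring hφV)

variable (hφV : ∀ s, φ s ∈ V)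

instance : (cen V φ hφV).IsPrime := Ideal.IsPrime.comap _

lemma mem_cen (s : S) : s ∈ cen V φ hφV ↔ V.valuation (φ s) < 1 :=
  V.valuation_lt_one_iff ⟨φ s, hφV s⟩

lemma not_mem_cen (s : S) : s ∉ cen V φ hφV ↔ φ s ≠ 0 ∧ (φ s)⁻¹ ∈ V := by
  rw [mem_cen, not_lt]
  constructor
  · intro h
    have h0 : φ s ≠ 0 := by
      intro h0
      rw [h0, map_zero] at h
      exact absurd h (not_le.2 zero_lt_one)
    refine ⟨h0, ?_⟩
    rw [← V.valuation_le_one_iff, map_inv₀]
    exact inv_le_one_of_one_le₀ h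
  · rintro ⟨h0, h1⟩
    rw [← V.valuation_le_one_iff, map_inv₀] at h1
    exact (inv_le_one₀ (zero_lt_iff.2 ((map_ne_zero _).2 h0))).1 h1

/-- The local ring at the centre. -/
theorem exists_theta : ∃ θ : Localization.AtPrime (cen V φ hφV) →+* lo V.toSubring φ.range,
    Function.Surjective θ ∧ ∀ s, ((θ (algebraMap S _ s) : lo V.toSubring φ.range) : F) = φ s := by
  have hP : ∀ s, φ s ∈ lo V.toSubring φ.range := fun s => le_lo _ _ ⟨s, rfl⟩
  have hu : ∀ y : (cen V φ hφV).primeCompl,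
      IsUnit (φ.codRestrict (lo V.toSubring φ.range) hP y) := by
    intro y
    obtain ⟨h0, h1⟩ := (not_mem_cen V φ hφV y).1 y.2
    refine isUnit_iff_exists_inv.2 ⟨⟨(φ y)⁻¹, 1, ⟨1, map_one _⟩, φ y, ⟨y, rfl⟩, h0, h1,
      (one_mul _).symm⟩, Subtype.ext ?_⟩
    exact mul_inv_cancel₀ h0
  refine ⟨IsLocalization.lift (M := (cen V φ hφV).primeCompl) hu, ?_, fun s => ?_⟩
  · rintro ⟨_, _, ⟨a, rfl⟩, _, ⟨b, rfl⟩, hb0, hbV, rfl⟩
    have hb : b ∉ cen V φ hφV := (not_mem_cen V φ hφV b).2 ⟨hb0, hbV⟩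
    refine ⟨IsLocalization.mk' _ a (⟨b, hb⟩ : (cen V φ hφV).primeCompl), ?_⟩
    rw [IsLocalization.lift_mk'_spec]
    apply Subtype.ext
    change φ a = φ b * (φ a * (φ b)⁻¹)
    field_simp
  · rw [IsLocalization.lift_eq]
    rfl

end cen

section ind

variable {B : Type u} [CommRing B] [IsLocalRing B] {ι : Type} [Fintype ι]

/-- Unit multiples of independent elements. -/
lemma ind_units {z w : ι → B} (hz : Ind z) (hu : ∀ i, ∃ t, IsUnit t ∧ w i = z i * t) : Ind w := by
  choose t ht hw using hu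
  refine ⟨fun i => by rw [hw i]; exact Ideal.mul_mem_right _ _ (hz.1 i), fun c hc i => ?_⟩
  have h1 := hz.2 (fun i => c i * t i) (by
    have h2 : ∑ i, c i * t i * z i = ∑ i, c i * w i := by
      refine Finset.sum_congr rfl fun i _ => ?_
      rw [hw i]
      ring
    rw [h2]
    exact hc) i
  rw [mul_comm] at h1
  exact (Ideal.unit_mul_mem_iff_mem _ (ht i)).1 h1

end ind

/-- The equations and the Jacobian matrix of a regular local ring over a perfect field. -/
theorem factor {k E : Type u} [Field k] [PerfectField k] [Field E] (V : ValuationSubring E)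
    {m : ℕ} (φ : MvPolynomial (Fin m) k →+* E) (hφV : ∀ s, φ s ∈ V) {ι : Type} [Fintype ι]
    [DecidableEq ι] {x : ι → E} (hreg : RegP V.toSubring (lo V.toSubring φ.range) x)
    (hx : ∀ i, (x i)⁻¹ ∉ V) :
    ∃ (r : ℕ) (f : Fin r → MvPolynomial (Fin m) k) (z y : ι → MvPolynomial (Fin m) k)
      (g : Fin r ⊕ ι → Fin m), (∀ i, φ (f i) = 0) ∧
      (∀ s, φ s = 0 → ∃ t, t ∉ cen V φ hφV ∧ t * s ∈ Ideal.span (Set.range f)) ∧
      (∀ i, φ (z i) = x i * φ (y i)) ∧ (∀ i, y i ∉ cen V φ hφV) ∧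
      (∀ i, z i ∈ cen V φ hφV) ∧
      (Matrix.of fun i j => pderiv (g j) (Sum.elim f z i)).det ∉ cen V φ hφV := by
  classical
  have hPr := hreg.reg
  set q := cen V φ hφV with hq
  let L := Localization.AtPrime q
  have hLr : IsRegularLocalRing L := IsRegularRing.isRegularLocalRing_localization q
  obtain ⟨θ, hθ, hθs⟩ := exists_theta V φ hφV
  obtain ⟨r, w, hw, hwi⟩ := exists_ker_gens θ hθ
  choose f u hfu using fun i => IsLocalization.exists_mk'_eq q.primeCompl (w i)
  have hfw : ∀ i, algebraMap _ L (f i) = w i * algebraMap _ L ((u i : q.primeCompl) :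
      MvPolynomial (Fin m) k) := by
    intro i
    rw [← hfu i]
    exact (IsLocalization.mk'_spec L (f i) (u i)).symm
  have hwk : ∀ i, θ (w i) = 0 := by
    intro i
    have h1 : w i ∈ RingHom.ker θ := by
      rw [← hw]
      exact Ideal.subset_span ⟨i, rfl⟩
    exact h1
  have hf0' : ∀ i, θ (algebraMap _ L (f i)) = 0 := by
    intro i
    rw [hfw, map_mul, hwk, zero_mul]
  have hf0 : ∀ i, φ (f i) = 0 := by
    intro i
    rw [← hθs, hf0' i]
    rfl
  have hfi : Ind fun i => algebraMap _ L (f i) := ind_units hwi fun i =>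
    ⟨_, IsLocalization.map_units L (u i), hfw i⟩
  choose a ha b hb hb0 hbV hab using fun i => hreg.mem i
  choose z hz using ha
  choose y hy using hb
  have hzy : ∀ i, φ (z i) = x i * φ (y i) := by
    intro i
    rw [hz i, hy i, hab i, mul_assoc, inv_mul_cancel₀ (hb0 i), mul_one]
  have hyq : ∀ i, y i ∉ q := by
    intro i
    rw [hq, not_mem_cen, hy i]
    exact ⟨hb0 i, hbV i⟩
  have hxm : ∀ i, (⟨x i, hreg.mem i⟩ : lo V.toSubring φ.range) ∈
      maximalIdeal (lo V.toSubring φ.range) := by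
    intro i
    rw [mem_maximalIdeal, mem_nonunits_iff, hreg.isUnit]
    exact fun h => hx i h.2
  have hxi : Ind fun i => (⟨x i, hreg.mem i⟩ : lo V.toSubring φ.range) :=
    hreg.ind.ind id Function.injective_id hxm
  have hzi : Ind fun i => θ (algebraMap _ L (z i)) := by
    refine ind_units hxi fun i => ⟨θ (algebraMap _ L (y i)), ?_, ?_⟩
    · exact (IsLocalization.map_units L (⟨y i, hyq i⟩ : q.primeCompl)).map θ
    · apply Subtype.ext
      change ((θ (algebraMap _ L (z i)) : lo V.toSubring φ.range) : E) = x i *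
        ((θ (algebraMap _ L (y i)) : lo V.toSubring φ.range) : E)
      rw [hθs, hθs, hzy i]
  have hall : Ind (Sum.elim (fun i => algebraMap _ L (f i)) fun i => algebraMap _ L (z i)) :=
    ind_sum θ hθ hf0' hfi hzi
  have hall' : IndAt q (Sum.elim f z) := by
    refine indAt_of_ind q ?_
    convert hall using 1
    funext i
    rcases i with i | i <;> rfl
  obtain ⟨g, hg⟩ := exists_minor_at q hall'
  refine ⟨r, f, z, y, g, hf0, fun s hs => ?_, hzy, hyq, fun i => hall'.1 (Sum.inr i), hg⟩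
  have h1 : algebraMap _ L s ∈ RingHom.ker θ := by
    rw [RingHom.mem_ker]
    apply Subtype.ext
    rw [hθs, hs]
    rfl
  have h2 : RingHom.ker θ ≤ (Ideal.span (Set.range f)).map (algebraMap _ L) := by
    rw [← hw, Ideal.span_le]
    rintro _ ⟨i, rfl⟩
    have h3 : algebraMap _ L (f i) ∈ (Ideal.span (Set.range f)).map (algebraMap _ L) :=
      Ideal.mem_map_of_mem _ (Ideal.subset_span ⟨i, rfl⟩)
    rw [hfw i, mul_comm] at h3
    exact (Ideal.unit_mul_mem_iff_mem _ (IsLocalization.map_units L (u i))).1 h3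
  obtain ⟨⟨⟨y', hy'⟩, t⟩, hyt⟩ := (IsLocalization.mem_map_algebraMap_iff q.primeCompl L).1 (h2 h1)
  change algebraMap _ L s * algebraMap _ L (t : MvPolynomial (Fin m) k) = algebraMap _ L y' at hyt
  rw [← map_mul] at hyt
  obtain ⟨d, hd⟩ := (IsLocalization.eq_iff_exists q.primeCompl L).1 hyt
  refine ⟨(d : MvPolynomial (Fin m) k) * t, q.primeCompl.mul_mem d.2 t.2, ?_⟩
  have h4 : (d : MvPolynomial (Fin m) k) * t * s = d * y' := by rw [← hd]; ring
  rw [h4]
  exact Ideal.mul_mem_left _ _ hy'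

end Pool.Agent.Q299.JN
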