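import Pool.Agent.Q299.JN.Join
import Pool.Agent.Q299.TD.Cls

/-!
# General position for joins of valuations
-/

set_option autoImplicit false

universe u v

namespace Pool.Agent.Q299.JN

open IsLocalRing Pool.Agent.W418.LU2 Pool.Agent.TH188.QS Pool.Agent.H176.DT MvPolynomial

/-- General position from stages with arbitrary index types. -/
theorem gp_of_st {K : Type u} [Field K] {V : ValuationSubring K} {A : Subring K}
    (h : ∀ G : Set K, G.Finite → (∀ g ∈ G, g ≠ 0) → ∃ (ι : Type) (_ : Fintype ι) (T : Set K)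
      (x : ι → K), St V A T x ∧ ∀ g ∈ G, PMon (PP V A T) x g ∧ (g ∈ V → g ∈ PP V A T)) :
    GP V A := by
  classical
  intro G H hG hH hG0 hH0
  obtain ⟨ι, _, T, x, hSt, hmon⟩ := h (G ∪ (H \ {0})) (hG.union (hH.subset Set.diff_subset)) (by
    rintro g (hg | ⟨-, hg0⟩)
    · exact (hG0 g hg).1
    · exact hg0)
  obtain ⟨β, hβA, hβm, hβT, -⟩ := hSt.den
  have hβ0 : β ≠ 0 := by
    obtain ⟨w, hw0, -, -, δ, hβ⟩ := hβm
    rw [hβ]
    exact mul_ne_zero hw0 (mo_ne_zero hSt.reg.ne δ)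
  refine ⟨ι, inferInstance, x, PP V A T, β, hSt.reg, ⟨hβA, hβ0, T, hSt.fin, fun t ht => ?_, rfl⟩,
    hβm, fun h hh => (hmon h (Or.inl hh)).1, fun h hh => ?_⟩
  · refine ⟨hSt.reg.PA (le_lo _ _ (Subring.subset_closure (Or.inr ht))), ?_⟩
    rw [mul_comm]
    exact hβT t ht
  · by_cases h0 : h = 0
    · rw [h0]
      exact Subring.zero_mem _
    · exact (hmon h (Or.inr ⟨hh, h0⟩)).2 (hH0 h hh).1

/-- Monomials in the first coordinates. -/
lemma mo_elim_left {F : Type u} [Field F] {ι₁ ι₂ : Type} [Fintype ι₁] [Fintype ι₂] (x : ι₁ → F)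
    (y : ι₂ → F) (δ : ι₁ → ℤ) : mo (Sum.elim x y) (Sum.elim δ 0) = mo x δ := by
  simp only [mo, Fintype.prod_sum_type, Sum.elim_inl, Sum.elim_inr, Pi.zero_apply, zpow_zero,
    Finset.prod_const_one, mul_one]

/-- Monomials in the last coordinates. -/
lemma mo_elim_right {F : Type u} [Field F] {ι₁ ι₂ : Type} [Fintype ι₁] [Fintype ι₂] (x : ι₁ → F)
    (y : ι₂ → F) (δ : ι₂ → ℤ) : mo (Sum.elim x y) (Sum.elim 0 δ) = mo y δ := by
  simp only [mo, Fintype.prod_sum_type, Sum.elim_inl, Sum.elim_inr, Pi.zero_apply, zpow_zero,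
    Finset.prod_const_one, one_mul]

lemma mo_map {E K : Type u} [Field E] [Field K] (f : E →+* K) {ι : Type} [Fintype ι] (x : ι → E)
    (δ : ι → ℤ) : f (mo x δ) = mo (fun i => f (x i)) δ := by
  simp only [mo, map_prod, map_zpow₀]

section join

variable {k E₁ E₂ K : Type u} [Field k] [PerfectField k] [Field E₁] [Field E₂] [Field K]

/-- The subring generated by the two fields. -/
abbrev JR (j₁ : E₁ →+* K) (j₂ : E₂ →+* K) : Subring K :=
  Subring.closure ((j₁.range : Set K) ∪ (j₂.range : Set K))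

/-- The valuation ring `V` is the join of its restrictions. -/
structure IsJn (ρ₂ : k →+* E₂) (j₁ : E₁ →+* K) (j₂ : E₂ →+* K)
    (V : ValuationSubring K) : Prop where
  ld : ∀ (n : ℕ) (a : Fin n → E₁) (b : Fin n → E₂),
    (∀ c : Fin n → k, ∑ i, ρ₂ (c i) * b i = 0 → c = 0) →
    ∑ i, j₁ (a i) * j₂ (b i) = 0 → a = 0
  ten : ∀ z ∈ JR j₁ j₂, ∃ (n : ℕ) (a : Fin n → E₁) (b : Fin n → E₂),
    z = ∑ i, j₁ (a i) * j₂ (b i) ∧ ∀ i, V.valuation (j₁ (a i) * j₂ (b i)) ≤ V.valuation z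
  fr : ∀ z : K, ∃ a ∈ JR j₁ j₂, ∃ b ∈ JR j₁ j₂, b ≠ 0 ∧ z = a * b⁻¹

omit [PerfectField k] in
/-- Elements of the join as sums of monomials. -/
lemma exists_terms {ρ₂ : k →+* E₂} {j₁ : E₁ →+* K} {j₂ : E₂ →+* K}
    {V : ValuationSubring K} (h : IsJn ρ₂ j₁ j₂ V) {z : K} (hz : z ∈ JR j₁ j₂)
    (hz0 : z ≠ 0) : ∃ (D₁ : Set E₁) (D₂ : Set E₂), D₁.Finite ∧ D₂.Finite ∧ (∀ a ∈ D₁, a ≠ 0) ∧
      (∀ b ∈ D₂, b ≠ 0) ∧ ∀ (P : Subring K) {ι : Type} [Fintype ι] (x : ι → K),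
        RegP V.toSubring P x →
        (∀ a ∈ D₁, ∀ b ∈ D₂, PMon P x (j₁ a * j₂ b)) →
        (∀ a ∈ D₁, ∀ b ∈ D₂, ∀ a' ∈ D₁, ∀ b' ∈ D₂,
          j₁ a * j₂ b * (j₁ a' * j₂ b')⁻¹ ∈ V → j₁ a * j₂ b * (j₁ a' * j₂ b')⁻¹ ∈ P) →
        PMon P x z := by
  classical
  obtain ⟨n, a, b, hab, hle⟩ := h.ten z hz
  refine ⟨{c | c ∈ Set.range a ∧ c ≠ 0}, {c | c ∈ Set.range b ∧ c ≠ 0},
    (Set.finite_range a).subset fun c hc => hc.1, (Set.finite_range b).subset fun c hc => hc.1,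
    fun c hc => hc.2, fun c hc => hc.2, ?_⟩
  intro P ι _ x hreg hmon hrat
  -- the term with the largest value
  let S : Finset (Fin n) := Finset.univ.filter fun i => j₁ (a i) * j₂ (b i) ≠ 0
  have hsum : z = ∑ i ∈ S, j₁ (a i) * j₂ (b i) := by
    rw [hab]
    exact (Finset.sum_filter_ne_zero _).symm
  have hS : S.Nonempty := by
    rw [Finset.nonempty_iff_ne_empty]
    intro hS
    rw [hS, Finset.sum_empty] at hsum
    exact hz0 hsum
  obtain ⟨l, hl, hmax⟩ := S.exists_max_image (fun i => V.valuation (j₁ (a i) * j₂ (b i))) hS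
  have hterm : ∀ i ∈ S, a i ≠ 0 ∧ b i ≠ 0 := by
    intro i hi
    have h1 := (Finset.mem_filter.1 hi).2
    exact ⟨fun h2 => h1 (by rw [h2, map_zero, zero_mul]),
      fun h2 => h1 (by rw [h2, map_zero, mul_zero])⟩
  set w : K := j₁ (a l) * j₂ (b l) with hw
  have hw0 : w ≠ 0 := (Finset.mem_filter.1 hl).2
  have hvw0 : V.valuation w ≠ 0 := (Valuation.ne_zero_iff _).2 hw0
  have hvz : V.valuation z = V.valuation w := by
    apply le_antisymm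
    · rw [hsum]
      exact Valuation.map_sum_le _ fun i hi => hmax i hi
    · exact hle l
  have h1 : ∀ i ∈ S, j₁ (a i) * j₂ (b i) * w⁻¹ ∈ P := by
    intro i hi
    refine hrat _ ⟨⟨i, rfl⟩, (hterm i hi).1⟩ _ ⟨⟨i, rfl⟩, (hterm i hi).2⟩ _
      ⟨⟨l, rfl⟩, (hterm l hl).1⟩ _ ⟨⟨l, rfl⟩, (hterm l hl).2⟩ ?_
    rw [← V.valuation_le_one_iff, map_mul, map_inv₀]
    exact mul_inv_le_one_of_le₀ (hmax i hi) zero_le'
  have h2 : z * w⁻¹ ∈ P := by
    rw [hsum, Finset.sum_mul]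
    exact Subring.sum_mem _ h1
  have h3 : z * w⁻¹ ≠ 0 := mul_ne_zero hz0 (inv_ne_zero hw0)
  have h4 : (z * w⁻¹)⁻¹ ∈ V := by
    rw [← V.valuation_le_one_iff, map_inv₀, map_mul, map_inv₀, hvz, mul_inv_cancel₀ hvw0, inv_one]
  have h5 : PMon P x (z * w⁻¹) := PMon.unit h3 h2 (hreg.inv _ h2 h3 h4)
  have h6 := h5.mul hreg.ne (hmon _ ⟨⟨l, rfl⟩, (hterm l hl).1⟩ _ ⟨⟨l, rfl⟩, (hterm l hl).2⟩)
  rwa [← hw, inv_mul_cancel_right₀ hw0] at h6

end join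

end Pool.Agent.Q299.JN
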