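import Pool.Agent.Q299.JN.Gp

/-!
# Stages of joins
-/

set_option autoImplicit false

universe u v

namespace Pool.Agent.Q299.JN

open IsLocalRing Pool.Agent.W418.LU2 Pool.Agent.TH188.QS Pool.Agent.H176.DT MvPolynomial

section join

variable {k E₁ E₂ K : Type u} [Field k] [PerfectField k] [Field E₁] [Field E₂] [Field K]

/-- The ring generated by two rings. -/
abbrev JA (j₁ : E₁ →+* K) (j₂ : E₂ →+* K) (A₁ : Subring E₁) (A₂ : Subring E₂) : Subring K :=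
  Subring.closure (((A₁.map j₁ : Subring K) : Set K) ∪ ((A₂.map j₂ : Subring K) : Set K))

omit [PerfectField k] in
lemma cl_join (j₁ : E₁ →+* K) (j₂ : E₂ →+* K) (A₁ : Subring E₁) (A₂ : Subring E₂)
    (T₁ : Set E₁) (T₂ : Set E₂) :
    JA j₁ j₂ (Subring.closure ((A₁ : Set E₁) ∪ T₁)) (Subring.closure ((A₂ : Set E₂) ∪ T₂)) =
      Subring.closure ((JA j₁ j₂ A₁ A₂ : Set K) ∪ (j₁ '' T₁ ∪ j₂ '' T₂)) := by
  have h1 : (Subring.closure ((A₁ : Set E₁) ∪ T₁)).map j₁ =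
      Subring.closure (((A₁.map j₁ : Subring K) : Set K) ∪ j₁ '' T₁) := by
    rw [RingHom.map_closure, Set.image_union]
    rfl
  have h2 : (Subring.closure ((A₂ : Set E₂) ∪ T₂)).map j₂ =
      Subring.closure (((A₂.map j₂ : Subring K) : Set K) ∪ j₂ '' T₂) := by
    rw [RingHom.map_closure, Set.image_union]
    rfl
  rw [JA, h1, h2]
  apply le_antisymm
  · rw [Subring.closure_le]
    rintro z (hz | hz)
    · refine (?_ : Subring.closure _ ≤ _) hz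
      rw [Subring.closure_le]
      rintro z (hz | hz)
      · exact Subring.subset_closure (Or.inl (Subring.subset_closure (Or.inl hz)))
      · exact Subring.subset_closure (Or.inr (Or.inl hz))
    · refine (?_ : Subring.closure _ ≤ _) hz
      rw [Subring.closure_le]
      rintro z (hz | hz)
      · exact Subring.subset_closure (Or.inl (Subring.subset_closure (Or.inr hz)))
      · exact Subring.subset_closure (Or.inr (Or.inr hz))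
  · rw [Subring.closure_le]
    rintro z (hz | hz | hz)
    · refine (?_ : Subring.closure _ ≤ _) hz
      rw [Subring.closure_le]
      rintro z (hz | hz)
      · exact Subring.subset_closure (Or.inl (Subring.subset_closure (Or.inl hz)))
      · exact Subring.subset_closure (Or.inr (Subring.subset_closure (Or.inl hz)))
    · exact Subring.subset_closure (Or.inl (Subring.subset_closure (Or.inr hz)))
    · exact Subring.subset_closure (Or.inr (Subring.subset_closure (Or.inr hz)))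

omit [PerfectField k] in
/-- Transport of elements of local rings. -/
lemma lo_left (V : ValuationSubring K) (j : E₁ →+* K) {B : Subring E₁} {B' : Subring K}
    (h : B.map j ≤ B') {z : E₁} (hz : z ∈ lo (V.comap j).toSubring B) :
    j z ∈ lo V.toSubring B' := by
  have h1 : ∀ e, j e ∈ V.toSubring ↔ e ∈ (V.comap j).toSubring := fun e => Iff.rfl
  have h2 : lo V.toSubring (B.map j) = (lo (V.comap j).toSubring B).map j := lo_map j h1 B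
  exact lo_mono h (by rw [h2]; exact ⟨z, hz, rfl⟩)

omit [PerfectField k] in
lemma pmon_left (V : ValuationSubring K) (j : E₁ →+* K) {B : Subring E₁} {B' : Subring K}
    (h : B.map j ≤ B') {ι₁ ι₂ : Type} [Fintype ι₁] [Fintype ι₂] {x : ι₁ → E₁} (y : ι₂ → K) {z : E₁}
    (hz : PMon (lo (V.comap j).toSubring B) x z) :
    PMon (lo V.toSubring B') (Sum.elim (fun i => j (x i)) y) (j z) := by
  obtain ⟨w, hw0, hw, hwi, δ, rfl⟩ := hz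
  refine ⟨j w, (map_ne_zero j).2 hw0, lo_left V j h hw, ?_, Sum.elim δ 0, ?_⟩
  · rw [← map_inv₀]
    exact lo_left V j h hwi
  · rw [mo_elim_left, map_mul, mo_map]

omit [PerfectField k] in
lemma pmon_right (V : ValuationSubring K) (j : E₁ →+* K) {B : Subring E₁} {B' : Subring K}
    (h : B.map j ≤ B') {ι₁ ι₂ : Type} [Fintype ι₁] [Fintype ι₂] {x : ι₁ → E₁} (y : ι₂ → K) {z : E₁}
    (hz : PMon (lo (V.comap j).toSubring B) x z) :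
    PMon (lo V.toSubring B') (Sum.elim y (fun i => j (x i))) (j z) := by
  obtain ⟨w, hw0, hw, hwi, δ, rfl⟩ := hz
  refine ⟨j w, (map_ne_zero j).2 hw0, lo_left V j h hw, ?_, Sum.elim 0 δ, ?_⟩
  · rw [← map_inv₀]
    exact lo_left V j h hwi
  · rw [mo_elim_right, map_mul, mo_map]

/-- Stages of joins. -/
theorem st_join (ρ₁ : k →+* E₁) (ρ₂ : k →+* E₂) (j₁ : E₁ →+* K) (j₂ : E₂ →+* K)
    (hC : ∀ c, j₁ (ρ₁ c) = j₂ (ρ₂ c)) (V : ValuationSubring K)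
    (hld : ∀ (n : ℕ) (a : Fin n → E₁) (b : Fin n → E₂),
      (∀ c : Fin n → k, ∑ i, ρ₂ (c i) * b i = 0 → c = 0) →
      ∑ i, j₁ (a i) * j₂ (b i) = 0 → a = 0)
    {U₁ : Set E₁} {U₂ : Set E₂} (hU₁ : U₁.Finite) (hU₂ : U₂.Finite)
    (hA₁ : Subring.closure ((ρ₁.range : Set E₁) ∪ U₁) ≤ (V.comap j₁).toSubring)
    (hA₂ : Subring.closure ((ρ₂.range : Set E₂) ∪ U₂) ≤ (V.comap j₂).toSubring)
    {T₁ : Set E₁} {T₂ : Set E₂} {ι₁ ι₂ : Type} [Fintype ι₁] [Fintype ι₂] {x₁ : ι₁ → E₁}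
    {x₂ : ι₂ → E₂} (h₁ : St (V.comap j₁) (Subring.closure ((ρ₁.range : Set E₁) ∪ U₁)) T₁ x₁)
    (h₂ : St (V.comap j₂) (Subring.closure ((ρ₂.range : Set E₂) ∪ U₂)) T₂ x₂)
    (hx₁ : ∀ i, (x₁ i)⁻¹ ∉ V.comap j₁) (hx₂ : ∀ i, (x₂ i)⁻¹ ∉ V.comap j₂) :
    St V (JA j₁ j₂ (Subring.closure ((ρ₁.range : Set E₁) ∪ U₁))
      (Subring.closure ((ρ₂.range : Set E₂) ∪ U₂))) (j₁ '' T₁ ∪ j₂ '' T₂)
      (Sum.elim (fun i => j₁ (x₁ i)) fun i => j₂ (x₂ i)) := by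
  classical
  set A₁ := Subring.closure ((ρ₁.range : Set E₁) ∪ U₁) with hA₁'
  set A₂ := Subring.closure ((ρ₂.range : Set E₂) ∪ U₂) with hA₂'
  have hcl := cl_join j₁ j₂ A₁ A₂ T₁ T₂
  have hle₁ : (Subring.closure ((A₁ : Set E₁) ∪ T₁)).map j₁ ≤
      Subring.closure ((JA j₁ j₂ A₁ A₂ : Set K) ∪ (j₁ '' T₁ ∪ j₂ '' T₂)) := by
    rw [← hcl]
    exact fun z hz => Subring.subset_closure (Or.inl hz)
  have hle₂ : (Subring.closure ((A₂ : Set E₂) ∪ T₂)).map j₂ ≤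
      Subring.closure ((JA j₁ j₂ A₁ A₂ : Set K) ∪ (j₁ '' T₁ ∪ j₂ '' T₂)) := by
    rw [← hcl]
    exact fun z hz => Subring.subset_closure (Or.inr hz)
  obtain ⟨m₁, t₁, ht₁⟩ := exists_fin_range (hU₁.union h₁.fin)
  obtain ⟨m₂, t₂, ht₂⟩ := exists_fin_range (hU₂.union h₂.fin)
  have hr₁ : (eval₂Hom ρ₁ t₁).range = Subring.closure ((A₁ : Set E₁) ∪ T₁) := by
    rw [range_eval, ht₁, hA₁', closure_closure_union, Set.union_assoc]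
  have hr₂ : (eval₂Hom ρ₂ t₂).range = Subring.closure ((A₂ : Set E₂) ∪ T₂) := by
    rw [range_eval, ht₂, hA₂', closure_closure_union, Set.union_assoc]
  have hB₁ : Subring.closure ((A₁ : Set E₁) ∪ T₁) ≤ (V.comap j₁).toSubring := fun z hz =>
    h₁.reg.PA (le_lo _ _ hz)
  have hB₂ : Subring.closure ((A₂ : Set E₂) ∪ T₂) ≤ (V.comap j₂).toSubring := fun z hz =>
    h₂.reg.PA (le_lo _ _ hz)
  have hreg := join_reg V (eval₂Hom ρ₁ t₁) (eval₂Hom ρ₂ t₂) j₁ j₂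
    (fun c => by rw [eval₂Hom_C, eval₂Hom_C]; exact hC c)
    (fun s => hB₁ (by rw [← hr₁]; exact ⟨s, rfl⟩)) (fun s => hB₂ (by rw [← hr₂]; exact ⟨s, rfl⟩))
    (fun n a b hb => hld n a b fun c hc => hb c (by
      rw [← hc]
      exact Finset.sum_congr rfl fun i _ => by rw [eval₂Hom_C]))
    (x₁ := x₁) (x₂ := x₂) (by rw [hr₁]; exact h₁.reg) (by rw [hr₂]; exact h₂.reg) hx₁ hx₂
  rw [hr₁, hr₂] at hreg
  refine ⟨(h₁.fin.image _).union (h₂.fin.image _), ?_, ?_⟩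
  · rw [PP, ← hcl]
    exact hreg
  · obtain ⟨β₁, hβ₁, hm₁, hT₁, hX₁⟩ := h₁.den
    obtain ⟨β₂, hβ₂, hm₂, hT₂, hX₂⟩ := h₂.den
    have i₁ : ∀ a ∈ A₁, j₁ a ∈ JA j₁ j₂ A₁ A₂ := fun a ha =>
      Subring.subset_closure (Or.inl ⟨a, ha, rfl⟩)
    have i₂ : ∀ a ∈ A₂, j₂ a ∈ JA j₁ j₂ A₁ A₂ := fun a ha =>
      Subring.subset_closure (Or.inr ⟨a, ha, rfl⟩)
    have e₁ : ∀ a, β₁ * a ∈ A₁ → j₁ β₁ * j₂ β₂ * j₁ a ∈ JA j₁ j₂ A₁ A₂ := by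
      intro a ha
      have h3 : j₁ β₁ * j₂ β₂ * j₁ a = j₁ (β₁ * a) * j₂ β₂ := by
        rw [map_mul]
        ring
      rw [h3]
      exact Subring.mul_mem _ (i₁ _ ha) (i₂ _ hβ₂)
    have e₂ : ∀ a, β₂ * a ∈ A₂ → j₁ β₁ * j₂ β₂ * j₂ a ∈ JA j₁ j₂ A₁ A₂ := by
      intro a ha
      have h3 : j₁ β₁ * j₂ β₂ * j₂ a = j₁ β₁ * j₂ (β₂ * a) := by
        rw [map_mul]
        ring
      rw [h3]
      exact Subring.mul_mem _ (i₁ _ hβ₁) (i₂ _ ha)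
    refine ⟨j₁ β₁ * j₂ β₂, Subring.mul_mem _ (i₁ _ hβ₁) (i₂ _ hβ₂), ?_, ?_, ?_⟩
    · refine PMon.mul ?_ (pmon_left V j₁ hle₁ _ hm₁) (pmon_right V j₂ hle₂ _ hm₂)
      rintro (i | i)
      · exact (map_ne_zero j₁).2 (h₁.reg.ne i)
      · exact (map_ne_zero j₂).2 (h₂.reg.ne i)
    · rintro _ (⟨t, ht, rfl⟩ | ⟨t, ht, rfl⟩)
      · exact e₁ t (hT₁ t ht)
      · exact e₂ t (hT₂ t ht)
    · rintro (i | i)
      · exact e₁ _ (hX₁ i)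
      · exact e₂ _ (hX₂ i)

/-- Joins are in general position. -/
theorem join_gp (ρ₁ : k →+* E₁) (ρ₂ : k →+* E₂) (j₁ : E₁ →+* K) (j₂ : E₂ →+* K)
    (hC : ∀ c, j₁ (ρ₁ c) = j₂ (ρ₂ c)) (V : ValuationSubring K) (hJ : IsJn ρ₂ j₁ j₂ V)
    {U₁ : Set E₁} {U₂ : Set E₂} (hU₁ : U₁.Finite) (hU₂ : U₂.Finite)
    (hA₁ : Subring.closure ((ρ₁.range : Set E₁) ∪ U₁) ≤ (V.comap j₁).toSubring)
    (hA₂ : Subring.closure ((ρ₂.range : Set E₂) ∪ U₂) ≤ (V.comap j₂).toSubring)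
    (h₁ : SU (V.comap j₁) (Subring.closure ((ρ₁.range : Set E₁) ∪ U₁)))
    (h₂ : SU (V.comap j₂) (Subring.closure ((ρ₂.range : Set E₂) ∪ U₂))) :
    GP V (JA j₁ j₂ (Subring.closure ((ρ₁.range : Set E₁) ∪ U₁))
      (Subring.closure ((ρ₂.range : Set E₂) ∪ U₂))) := by
  classical
  set A₁ := Subring.closure ((ρ₁.range : Set E₁) ∪ U₁) with hA₁'
  set A₂ := Subring.closure ((ρ₂.range : Set E₂) ∪ U₂) with hA₂'
  refine gp_of_st fun G hG hG0 => ?_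
  -- numerators and denominators
  have hnum : ∀ g : K, ∃ z w : K, g ≠ 0 → z ∈ JR j₁ j₂ ∧ w ∈ JR j₁ j₂ ∧ z ≠ 0 ∧ w ≠ 0 ∧
      g = z * w⁻¹ := by
    intro g
    obtain ⟨z, hz, w, hw, hw0, hg⟩ := hJ.fr g
    refine ⟨z, w, fun hg0 => ⟨hz, hw, ?_, hw0, hg⟩⟩
    rintro rfl
    exact hg0 (by rw [hg, zero_mul])
  choose z w hzw using hnum
  have hterms : ∀ y : K, ∃ (D₁ : Set E₁) (D₂ : Set E₂), y ∈ JR j₁ j₂ → y ≠ 0 →
      D₁.Finite ∧ D₂.Finite ∧ (∀ a ∈ D₁, a ≠ 0) ∧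
      (∀ b ∈ D₂, b ≠ 0) ∧ ∀ (P : Subring K) {ι : Type} [Fintype ι] (x : ι → K),
        RegP V.toSubring P x →
        (∀ a ∈ D₁, ∀ b ∈ D₂, PMon P x (j₁ a * j₂ b)) →
        (∀ a ∈ D₁, ∀ b ∈ D₂, ∀ a' ∈ D₁, ∀ b' ∈ D₂,
          j₁ a * j₂ b * (j₁ a' * j₂ b')⁻¹ ∈ V → j₁ a * j₂ b * (j₁ a' * j₂ b')⁻¹ ∈ P) →
        PMon P x y := by
    intro y
    by_cases hy : y ∈ JR j₁ j₂ ∧ y ≠ 0
    · obtain ⟨D₁, D₂, h⟩ := exists_terms hJ hy.1 hy.2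
      exact ⟨D₁, D₂, fun _ _ => h⟩
    · exact ⟨∅, ∅, fun h1 h2 => absurd ⟨h1, h2⟩ hy⟩
  choose D₁ D₂ hD using hterms
  let N : Set K := z '' G ∪ w '' G
  have hN : N.Finite := (hG.image _).union (hG.image _)
  have hNm : ∀ y ∈ N, y ∈ JR j₁ j₂ ∧ y ≠ 0 := by
    rintro _ (⟨g, hg, rfl⟩ | ⟨g, hg, rfl⟩)
    · exact ⟨(hzw g (hG0 g hg)).1, (hzw g (hG0 g hg)).2.2.1⟩
    · exact ⟨(hzw g (hG0 g hg)).2.1, (hzw g (hG0 g hg)).2.2.2.1⟩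
  let G₁ : Set E₁ := ⋃ y ∈ N, D₁ y
  let G₂ : Set E₂ := ⋃ y ∈ N, D₂ y
  have hG₁ : G₁.Finite := hN.biUnion fun y hy => (hD y (hNm y hy).1 (hNm y hy).2).1
  have hG₂ : G₂.Finite := hN.biUnion fun y hy => (hD y (hNm y hy).1 (hNm y hy).2).2.1
  have hG₁0 : ∀ a ∈ G₁, a ≠ 0 := by
    intro a ha
    obtain ⟨y, hy, hay⟩ := Set.mem_iUnion₂.1 ha
    exact (hD y (hNm y hy).1 (hNm y hy).2).2.2.1 a hay
  have hG₂0 : ∀ a ∈ G₂, a ≠ 0 := by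
    intro a ha
    obtain ⟨y, hy, hay⟩ := Set.mem_iUnion₂.1 ha
    exact (hD y (hNm y hy).1 (hNm y hy).2).2.2.2.1 a hay
  obtain ⟨T₁, s₁, x₁, hSt₁, hx₁, -, hmon₁⟩ := p_ind (V.comap j₁) A₁ h₁ G₁ hG₁ hG₁0
  obtain ⟨T₂, s₂, x₂, hSt₂, hx₂, -, hmon₂⟩ := p_ind (V.comap j₂) A₂ h₂ G₂ hG₂ hG₂0
  have hSt := st_join ρ₁ ρ₂ j₁ j₂ hC V hJ.ld hU₁ hU₂ hA₁ hA₂ hSt₁ hSt₂ hx₁ hx₂
  rw [← hA₁', ← hA₂'] at hSt
  set T : Set K := j₁ '' T₁ ∪ j₂ '' T₂ with hT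
  have hcl := cl_join j₁ j₂ A₁ A₂ T₁ T₂
  have hle₁ : (Subring.closure ((A₁ : Set E₁) ∪ T₁)).map j₁ ≤
      Subring.closure ((JA j₁ j₂ A₁ A₂ : Set K) ∪ T) := by
    rw [← hcl]
    exact fun z hz => Subring.subset_closure (Or.inl hz)
  have hle₂ : (Subring.closure ((A₂ : Set E₂) ∪ T₂)).map j₂ ≤
      Subring.closure ((JA j₁ j₂ A₁ A₂ : Set K) ∪ T) := by
    rw [← hcl]
    exact fun z hz => Subring.subset_closure (Or.inr hz)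
  have hpm : ∀ a ∈ G₁, ∀ b ∈ G₂, PMon (PP V (JA j₁ j₂ A₁ A₂) T)
      (Sum.elim (fun i => j₁ (x₁ i)) fun i => j₂ (x₂ i)) (j₁ a * j₂ b) := fun a ha b hb =>
    PMon.mul hSt.reg.ne (pmon_left V j₁ hle₁ _ (hmon₁ a ha).1) (pmon_right V j₂ hle₂ _ (hmon₂ b hb).1)
  let Q : Set K := Set.image2 (fun a b => j₁ a * j₂ b) G₁ G₂
  have hQ : Q.Finite := hG₁.image2 _ hG₂
  let R : Set K := Set.image2 (fun q r => q * r⁻¹) Q Q
  have hR : R.Finite := hQ.image2 _ hQ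
  have hQm : ∀ q ∈ Q, PMon (PP V (JA j₁ j₂ A₁ A₂) T)
      (Sum.elim (fun i => j₁ (x₁ i)) fun i => j₂ (x₂ i)) q := by
    rintro _ ⟨a, ha, b, hb, rfl⟩
    exact hpm a ha b hb
  obtain ⟨T', x', -, hSt', -, -, hup, hRP⟩ := p_ref V (JA j₁ j₂ A₁ A₂) T _ hSt R hR (by
    rintro _ ⟨q, hq, r, hr, rfl⟩
    exact (hQm q hq).mul hSt.reg.ne (hQm r hr).inv)
  have hNP : ∀ y ∈ N, PMon (PP V (JA j₁ j₂ A₁ A₂) T') x' y := by
    intro y hy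
    have hG₁y : ∀ a ∈ D₁ y, a ∈ G₁ := fun a ha => Set.mem_iUnion₂.2 ⟨y, hy, ha⟩
    have hG₂y : ∀ a ∈ D₂ y, a ∈ G₂ := fun a ha => Set.mem_iUnion₂.2 ⟨y, hy, ha⟩
    refine (hD y (hNm y hy).1 (hNm y hy).2).2.2.2.2 _ x' hSt'.reg
      (fun a ha b hb => hup _ (hpm a (hG₁y a ha) b (hG₂y b hb))) fun a ha b hb a' ha' b' hb' hV => ?_
    exact hRP _ ⟨_, ⟨a, hG₁y a ha, b, hG₂y b hb, rfl⟩, _, ⟨a', hG₁y a' ha', b', hG₂y b' hb', rfl⟩,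
      rfl⟩ hV
  have hGP : ∀ g ∈ G, PMon (PP V (JA j₁ j₂ A₁ A₂) T') x' g := by
    intro g hg
    rw [(hzw g (hG0 g hg)).2.2.2.2]
    exact (hNP _ (Or.inl ⟨g, hg, rfl⟩)).mul hSt'.reg.ne (hNP _ (Or.inr ⟨g, hg, rfl⟩)).inv
  obtain ⟨T'', x'', -, hSt'', -, -, hup', hGV⟩ := p_ref V (JA j₁ j₂ A₁ A₂) T' x' hSt' G hG hGP
  exact ⟨_, _, T'', x'', hSt'', fun g hg => ⟨hup' g (hGP g hg), hGV g hg⟩⟩

end join

end Pool.Agent.Q299.JN
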