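import Pool.Agent.Q299.JN.Fac

/-!
# Regularity of the local rings of products
-/

set_option autoImplicit false

universe u v

namespace Pool.Agent.Q299.JN

open IsLocalRing Pool.Agent.W418.LU2 Pool.Agent.TH188.QS MvPolynomial

section ker

variable {k E₁ E₂ K : Type u} [Field k] [Field E₁] [Field E₂] [Field K] {m₁ m₂ : ℕ}
  (φ₁ : MvPolynomial (Fin m₁) k →+* E₁) (φ₂ : MvPolynomial (Fin m₂) k →+* E₂)
  (j₁ : E₁ →+* K) (j₂ : E₂ →+* K) (φ : MvPolynomial (Fin m₁ ⊕ Fin m₂) k →+* K)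

/-- Elements are sums of products. -/
lemma exists_sum (s : MvPolynomial (Fin m₁ ⊕ Fin m₂) k) : ∃ (n : ℕ)
    (a : Fin n → MvPolynomial (Fin m₁) k) (b : Fin n → MvPolynomial (Fin m₂) k),
    s = ∑ i, rename Sum.inl (a i) * rename Sum.inr (b i) := by
  induction s using MvPolynomial.induction_on with
  | C c =>
    refine ⟨1, fun _ => C c, fun _ => 1, ?_⟩
    rw [Fin.sum_univ_one, map_one, mul_one, rename_C]
  | add p q hp hq =>
    obtain ⟨n, a, b, rfl⟩ := hp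
    obtain ⟨n', a', b', rfl⟩ := hq
    refine ⟨n + n', Fin.append a a', Fin.append b b', ?_⟩
    rw [Fin.sum_univ_add]
    simp only [Fin.append_left, Fin.append_right]
  | mul_X p i hp =>
    obtain ⟨n, a, b, rfl⟩ := hp
    rcases i with i | i
    · refine ⟨n, fun l => a l * X i, b, ?_⟩
      rw [Finset.sum_mul]
      refine Finset.sum_congr rfl fun l _ => ?_
      rw [map_mul, rename_X]
      ring
    · refine ⟨n, a, fun l => b l * X i, ?_⟩
      rw [Finset.sum_mul]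
      refine Finset.sum_congr rfl fun l _ => ?_
      rw [map_mul, rename_X]
      ring

variable (h1 : ∀ s, φ (rename Sum.inl s) = j₁ (φ₁ s)) (h2 : ∀ s, φ (rename Sum.inr s) = j₂ (φ₂ s))
  (hld : ∀ (n : ℕ) (a : Fin n → E₁) (b : Fin n → E₂),
    (∀ c : Fin n → k, ∑ i, φ₂ (C (c i)) * b i = 0 → c = 0) →
    ∑ i, j₁ (a i) * j₂ (b i) = 0 → a = 0)

include h1 h2 hld

/-- The kernel is generated by the kernels of the factors. -/
theorem ker_join (I : Ideal (MvPolynomial (Fin m₁ ⊕ Fin m₂) k))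
    (hI₁ : ∀ s, φ₁ s = 0 → rename Sum.inl s ∈ I) (hI₂ : ∀ s, φ₂ s = 0 → rename Sum.inr s ∈ I)
    (s : MvPolynomial (Fin m₁ ⊕ Fin m₂) k) (hs : φ s = 0) : s ∈ I := by
  classical
  have key : ∀ (n : ℕ) (a : Fin n → MvPolynomial (Fin m₁) k)
      (b : Fin n → MvPolynomial (Fin m₂) k),
      φ (∑ i, rename Sum.inl (a i) * rename Sum.inr (b i)) = 0 →
      ∑ i, rename Sum.inl (a i) * rename Sum.inr (b i) ∈ I := by
    intro n
    induction n with
    | zero =>
      intro a b _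
      rw [Fin.sum_univ_zero]
      exact I.zero_mem
    | succ n ih =>
      intro a b hab
      by_cases hc : ∀ c : Fin (n + 1) → k, ∑ i, φ₂ (C (c i)) * φ₂ (b i) = 0 → c = 0
      · have h3 := hld (n + 1) (fun i => φ₁ (a i)) (fun i => φ₂ (b i)) hc (by
          rw [map_sum] at hab
          rw [← hab]
          refine Finset.sum_congr rfl fun i _ => ?_
          rw [map_mul, h1, h2])
        exact I.sum_mem fun i _ => I.mul_mem_right _ (hI₁ _ (congrFun h3 i))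
      · push Not at hc
        obtain ⟨c, hc0, hcne⟩ := hc
        obtain ⟨i₀, hi₀⟩ := Function.ne_iff.1 hcne
        have hi₀' : c i₀ ≠ 0 := hi₀
        set e : MvPolynomial (Fin m₂) k := ∑ i, C (c i) * b i with he
        have he0 : φ₂ e = 0 := by
          rw [he, map_sum, ← hc0]
          exact Finset.sum_congr rfl fun i _ => map_mul _ _ _
        have heI : rename Sum.inr e ∈ I := hI₂ e he0
        let a' : Fin n → MvPolynomial (Fin m₁) k := fun l =>
          a (i₀.succAbove l) - C ((c i₀)⁻¹ * c (i₀.succAbove l)) * a i₀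
        let b' : Fin n → MvPolynomial (Fin m₂) k := fun l => b (i₀.succAbove l)
        have hsum : ∑ i, rename Sum.inl (a i) * rename Sum.inr (b i) =
            C (c i₀)⁻¹ * rename Sum.inl (a i₀) * rename Sum.inr e +
              ∑ l, rename Sum.inl (a' l) * rename (Sum.inr : Fin m₂ → Fin m₁ ⊕ Fin m₂) (b' l) := by
          rw [Fin.sum_univ_succAbove _ i₀, he, map_sum, Fin.sum_univ_succAbove _ i₀]
          simp only [a', b', map_mul, map_sub, rename_C]
          have h3 : (C (c i₀)⁻¹ * C (c i₀) : MvPolynomial (Fin m₁ ⊕ Fin m₂) k) = 1 := by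
            rw [← C_mul, inv_mul_cancel₀ hi₀', C_1]
          have h4 : ∀ (x y : MvPolynomial (Fin m₁ ⊕ Fin m₂) k)
              (g : Fin n → MvPolynomial (Fin m₁ ⊕ Fin m₂) k),
              C (c i₀)⁻¹ * x * (C (c i₀) * y + ∑ l, g l) = x * y + ∑ l, C (c i₀)⁻¹ * x * g l := by
            intro x y g
            rw [mul_add, Finset.mul_sum]
            congr 1
            linear_combination (x * y) * h3
          rw [h4, add_assoc, ← Finset.sum_add_distrib]
          congr 1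
          refine Finset.sum_congr rfl fun l _ => ?_
          ring
        rw [hsum]
        refine I.add_mem (I.mul_mem_left _ heI) (ih a' b' ?_)
        have h5 := hab
        rw [hsum, map_add, map_mul, h2, he0, map_zero, mul_zero, zero_add] at h5
        exact h5
  obtain ⟨n, a, b, rfl⟩ := exists_sum s
  exact key n a b hs

end ker

section join

variable {k E₁ E₂ K : Type u} [Field k] [PerfectField k] [Field E₁] [Field E₂] [Field K]
  {m₁ m₂ : ℕ}

/-- The local ring of a product of regular local rings over a perfect field is regular. -/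
theorem join_reg (V : ValuationSubring K)
    (φ₁ : MvPolynomial (Fin m₁) k →+* E₁) (φ₂ : MvPolynomial (Fin m₂) k →+* E₂)
    (j₁ : E₁ →+* K) (j₂ : E₂ →+* K) (hC : ∀ c, j₁ (φ₁ (C c)) = j₂ (φ₂ (C c)))
    (hφ₁ : ∀ s, φ₁ s ∈ V.comap j₁) (hφ₂ : ∀ s, φ₂ s ∈ V.comap j₂)
    (hld : ∀ (n : ℕ) (a : Fin n → E₁) (b : Fin n → E₂),
      (∀ c : Fin n → k, ∑ i, φ₂ (C (c i)) * b i = 0 → c = 0) →
      ∑ i, j₁ (a i) * j₂ (b i) = 0 → a = 0)
    {ι₁ ι₂ : Type} [Fintype ι₁] [Fintype ι₂] {x₁ : ι₁ → E₁} {x₂ : ι₂ → E₂}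
    (hr₁ : RegP (V.comap j₁).toSubring (lo (V.comap j₁).toSubring φ₁.range) x₁)
    (hr₂ : RegP (V.comap j₂).toSubring (lo (V.comap j₂).toSubring φ₂.range) x₂)
    (hx₁ : ∀ i, (x₁ i)⁻¹ ∉ V.comap j₁) (hx₂ : ∀ i, (x₂ i)⁻¹ ∉ V.comap j₂) :
    RegP V.toSubring (lo V.toSubring (Subring.closure (((φ₁.range.map j₁ : Subring K) : Set K) ∪
      ((φ₂.range.map j₂ : Subring K) : Set K)))) (Sum.elim (fun i => j₁ (x₁ i)) fun i => j₂ (x₂ i)) := by
  classical
  obtain ⟨r₁, f₁, z₁, y₁, g₁, hf₁, hgen₁, hzy₁, hy₁, hz₁, hg₁⟩ := factor (V.comap j₁) φ₁ hφ₁ hr₁ hx₁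
  obtain ⟨r₂, f₂, z₂, y₂, g₂, hf₂, hgen₂, hzy₂, hy₂, hz₂, hg₂⟩ := factor (V.comap j₂) φ₂ hφ₂ hr₂ hx₂
  let φ : MvPolynomial (Fin m₁ ⊕ Fin m₂) k →+* K :=
    eval₂Hom ((j₁.comp φ₁).comp C) (Sum.elim (fun i => j₁ (φ₁ (X i))) fun i => j₂ (φ₂ (X i)))
  have h1 : ∀ s, φ (rename Sum.inl s) = j₁ (φ₁ s) := by
    have h : (φ.comp (rename (Sum.inl : Fin m₁ → Fin m₁ ⊕ Fin m₂) (R := k)).toRingHom) =
        j₁.comp φ₁ := by
      apply MvPolynomial.ringHom_ext
      · intro c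
        change φ (rename Sum.inl (C c)) = _
        rw [rename_C]
        exact eval₂Hom_C _ _ _
      · intro i
        change φ (rename Sum.inl (X i)) = _
        rw [rename_X]
        exact eval₂Hom_X' _ _ _
    intro s
    exact congrArg (fun g => g s) h
  have h2 : ∀ s, φ (rename Sum.inr s) = j₂ (φ₂ s) := by
    have h : (φ.comp (rename (Sum.inr : Fin m₂ → Fin m₁ ⊕ Fin m₂) (R := k)).toRingHom) =
        j₂.comp φ₂ := by
      apply MvPolynomial.ringHom_ext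
      · intro c
        change φ (rename Sum.inr (C c)) = _
        rw [rename_C]
        refine (eval₂Hom_C _ _ _).trans ?_
        exact hC c
      · intro i
        change φ (rename Sum.inr (X i)) = _
        rw [rename_X]
        exact eval₂Hom_X' _ _ _
    intro s
    exact congrArg (fun g => g s) h
  have hrange : φ.range = Subring.closure (((φ₁.range.map j₁ : Subring K) : Set K) ∪
      ((φ₂.range.map j₂ : Subring K) : Set K)) := by
    apply le_antisymm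
    · rintro _ ⟨s, rfl⟩
      obtain ⟨n, a, b, rfl⟩ := exists_sum s
      rw [map_sum]
      refine Subring.sum_mem _ fun i _ => ?_
      rw [map_mul, h1, h2]
      exact Subring.mul_mem _ (Subring.subset_closure (Or.inl ⟨_, ⟨_, rfl⟩, rfl⟩))
        (Subring.subset_closure (Or.inr ⟨_, ⟨_, rfl⟩, rfl⟩))
    · rw [Subring.closure_le]
      rintro _ (⟨_, ⟨s, rfl⟩, rfl⟩ | ⟨_, ⟨s, rfl⟩, rfl⟩)
      · exact ⟨rename Sum.inl s, h1 s⟩
      · exact ⟨rename Sum.inr s, h2 s⟩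
  rw [← hrange]
  have hφV : ∀ s, φ s ∈ V := by
    intro s
    obtain ⟨n, a, b, rfl⟩ := exists_sum s
    rw [map_sum]
    refine V.toSubring.sum_mem fun i _ => ?_
    rw [map_mul, h1, h2]
    exact V.mul_mem _ _ (hφ₁ _) (hφ₂ _)
  have hn₁ : ∀ s, s ∉ cen (V.comap j₁) φ₁ hφ₁ → rename Sum.inl s ∉ cen V φ hφV := by
    intro s hs
    obtain ⟨h3, h4⟩ := (not_mem_cen _ _ _ _).1 hs
    rw [not_mem_cen, h1]
    exact ⟨(map_ne_zero j₁).2 h3, by rw [← map_inv₀]; exact h4⟩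
  have hn₂ : ∀ s, s ∉ cen (V.comap j₂) φ₂ hφ₂ → rename Sum.inr s ∉ cen V φ hφV := by
    intro s hs
    obtain ⟨h3, h4⟩ := (not_mem_cen _ _ _ _).1 hs
    rw [not_mem_cen, h2]
    exact ⟨(map_ne_zero j₂).2 h3, by rw [← map_inv₀]; exact h4⟩
  have hc₁ : ∀ s, s ∈ cen (V.comap j₁) φ₁ hφ₁ → rename Sum.inl s ∈ cen V φ hφV := by
    intro s hs
    by_contra h3
    rw [not_mem_cen, h1, ← map_inv₀] at h3
    exact ((not_mem_cen (V.comap j₁) φ₁ hφ₁ s).2 ⟨(map_ne_zero j₁).1 h3.1, h3.2⟩) hs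
  have hc₂ : ∀ s, s ∈ cen (V.comap j₂) φ₂ hφ₂ → rename Sum.inr s ∈ cen V φ hφV := by
    intro s hs
    by_contra h3
    rw [not_mem_cen, h2, ← map_inv₀] at h3
    exact ((not_mem_cen (V.comap j₂) φ₂ hφ₂ s).2 ⟨(map_ne_zero j₂).1 h3.1, h3.2⟩) hs
  have hf0 : ∀ {E : Type u} [Field E] (W : ValuationSubring E) {m : ℕ}
      (ψ : MvPolynomial (Fin m) k →+* E) (hψ : ∀ s, ψ s ∈ W) (s), ψ s = 0 → s ∈ cen W ψ hψ := by
    intro E _ W m ψ hψ s hs
    rw [mem_cen, hs, map_zero]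
    exact zero_lt_one
  set Q := cen V φ hφV with hQ
  let L := Localization.AtPrime Q
  have hLr : IsRegularLocalRing L := IsRegularRing.isRegularLocalRing_localization Q
  obtain ⟨θ, hθ, hθs⟩ := exists_theta V φ hφV
  have hInd : IndAt Q (Sum.elim (fun i => rename Sum.inl (Sum.elim f₁ z₁ i))
      (fun i => rename Sum.inr (Sum.elim f₂ z₂ i))) := by
    refine indAt_join Q g₁ g₂ (hn₁ _ hg₁) (hn₂ _ hg₂) ?_ ?_
    · rintro (i | i)
      · exact hc₁ _ (hf0 _ _ _ _ (hf₁ i))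
      · exact hc₁ _ (hz₁ i)
    · rintro (i | i)
      · exact hc₂ _ (hf0 _ _ _ _ (hf₂ i))
      · exact hc₂ _ (hz₂ i)
  have hInd' := ind_of_indAt Q hInd
  let Z : ι₁ ⊕ ι₂ → MvPolynomial (Fin m₁ ⊕ Fin m₂) k :=
    Sum.elim (fun i => rename Sum.inl (z₁ i)) fun i => rename Sum.inr (z₂ i)
  let Y : ι₁ ⊕ ι₂ → MvPolynomial (Fin m₁ ⊕ Fin m₂) k :=
    Sum.elim (fun i => rename Sum.inl (y₁ i)) fun i => rename Sum.inr (y₂ i)
  let H : Fin r₁ ⊕ Fin r₂ → MvPolynomial (Fin m₁ ⊕ Fin m₂) k :=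
    Sum.elim (fun i => rename Sum.inl (f₁ i)) fun i => rename Sum.inr (f₂ i)
  let σ : (ι₁ ⊕ ι₂) ⊕ (Fin r₁ ⊕ Fin r₂) → (Fin r₁ ⊕ ι₁) ⊕ (Fin r₂ ⊕ ι₂) :=
    Sum.elim (Sum.elim (fun i => Sum.inl (Sum.inr i)) fun i => Sum.inr (Sum.inr i))
      (Sum.elim (fun i => Sum.inl (Sum.inl i)) fun i => Sum.inr (Sum.inl i))
  have hσ : Function.Injective σ := by
    rintro ((a | a) | (a | a)) ((b | b) | (b | b)) hab <;> simp [σ] at hab ⊢ <;> exact hab
  have hInd2 : Ind (Sum.elim (fun i => algebraMap _ L (Z i)) fun i => algebraMap _ L (H i)) := by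
    have h3 := hInd'.comp σ hσ
    convert h3 using 1
    funext i
    rcases i with (i | i) | (i | i) <;> rfl
  have hHQ : ∀ i, algebraMap _ L (H i) ∈ maximalIdeal L := fun i => hInd2.1 (Sum.inr i)
  have hHker : ∀ i, φ (H i) = 0 := by
    rintro (i | i)
    · change φ (rename Sum.inl (f₁ i)) = 0
      rw [h1, hf₁, map_zero]
    · change φ (rename Sum.inr (f₂ i)) = 0
      rw [h2, hf₂, map_zero]
  -- the kernel
  let I : Ideal (MvPolynomial (Fin m₁ ⊕ Fin m₂) k) :=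
    ((Ideal.span (Set.range H)).map (algebraMap _ L)).comap (algebraMap _ L)
  have hIu : ∀ t s, t ∉ Q → t * s ∈ I → s ∈ I := by
    intro t s ht hts
    have hu : IsUnit (algebraMap _ L t) := IsLocalization.map_units L (⟨t, ht⟩ : Q.primeCompl)
    have h3 : algebraMap _ L (t * s) ∈ (Ideal.span (Set.range H)).map (algebraMap _ L) := hts
    rw [map_mul] at h3
    exact (Ideal.unit_mul_mem_iff_mem _ hu).1 h3
  have hIH : ∀ s ∈ Ideal.span (Set.range H), s ∈ I := fun s hs => Ideal.mem_map_of_mem _ hs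
  have hI₁ : ∀ s, φ₁ s = 0 → rename Sum.inl s ∈ I := by
    intro s hs
    obtain ⟨t, ht, hts⟩ := hgen₁ s hs
    refine hIu (rename Sum.inl t) _ (hn₁ t ht) (hIH _ ?_)
    rw [← map_mul]
    have h3 : (Ideal.span (Set.range f₁)).map (rename (Sum.inl : Fin m₁ → Fin m₁ ⊕ Fin m₂)
        (R := k)).toRingHom ≤ Ideal.span (Set.range H) := by
      rw [Ideal.map_span, Ideal.span_le]
      rintro _ ⟨_, ⟨i, rfl⟩, rfl⟩
      exact Ideal.subset_span ⟨Sum.inl i, rfl⟩
    exact h3 (Ideal.mem_map_of_mem _ hts)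
  have hI₂ : ∀ s, φ₂ s = 0 → rename Sum.inr s ∈ I := by
    intro s hs
    obtain ⟨t, ht, hts⟩ := hgen₂ s hs
    refine hIu (rename Sum.inr t) _ (hn₂ t ht) (hIH _ ?_)
    rw [← map_mul]
    have h3 : (Ideal.span (Set.range f₂)).map (rename (Sum.inr : Fin m₂ → Fin m₁ ⊕ Fin m₂)
        (R := k)).toRingHom ≤ Ideal.span (Set.range H) := by
      rw [Ideal.map_span, Ideal.span_le]
      rintro _ ⟨_, ⟨i, rfl⟩, rfl⟩
      exact Ideal.subset_span ⟨Sum.inr i, rfl⟩
    exact h3 (Ideal.mem_map_of_mem _ hts)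
  have hkerI : ∀ s, φ s = 0 → s ∈ I := fun s hs =>
    ker_join φ₁ φ₂ j₁ j₂ φ h1 h2 hld I hI₁ hI₂ s hs
  have hθ0 : ∀ s, θ (algebraMap _ L s) = 0 ↔ φ s = 0 := by
    intro s
    rw [← hθs s]
    exact ⟨fun h => by rw [h]; rfl, fun h => Subtype.ext h⟩
  have hker : RingHom.ker θ = Ideal.span (Set.range fun i => algebraMap _ L (H i)) := by
    apply le_antisymm
    · intro w hw
      obtain ⟨s, t, hst⟩ := IsLocalization.exists_mk'_eq Q.primeCompl w
      have h3 := IsLocalization.mk'_spec L s t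
      rw [hst] at h3
      have h4 : algebraMap _ L s ∈ RingHom.ker θ := by
        rw [← h3]
        exact Ideal.mul_mem_right _ _ hw
      have h5 : algebraMap _ L s ∈ (Ideal.span (Set.range H)).map (algebraMap _ L) :=
        hkerI s ((hθ0 s).1 h4)
      rw [Ideal.map_span, ← Set.range_comp] at h5
      rw [← h3, mul_comm] at h5
      exact (Ideal.unit_mul_mem_iff_mem _ (IsLocalization.map_units L t)).1 h5
    · rw [Ideal.span_le]
      rintro _ ⟨i, rfl⟩
      exact (hθ0 _).2 (hHker i)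
  have hBV : φ.range ≤ V.toSubring := by
    rintro _ ⟨s, rfl⟩
    exact hφV s
  have hloc : IsLocalRing (lo V.toSubring φ.range) := isLocalRing_lo (loc_V V) hBV
  have hIndN : IndN (Sum.elim (fun i => algebraMap _ L (Z i)) fun i => algebraMap _ L (H i)) :=
    IndN.of_ind id Function.injective_id (fun i _ => ⟨i, rfl⟩) hInd2
  obtain ⟨hreg, hN⟩ := quot_regular' hIndN hHQ θ hθ hker
  have hYQ : ∀ i, Y i ∉ Q := by
    rintro (i | i)
    · exact hn₁ _ (hy₁ i)
    · exact hn₂ _ (hy₂ i)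
  have hZY : ∀ i, φ (Z i) = Sum.elim (fun i => j₁ (x₁ i)) (fun i => j₂ (x₂ i)) i * φ (Y i) := by
    rintro (i | i)
    · change φ (rename Sum.inl (z₁ i)) = j₁ (x₁ i) * φ (rename Sum.inl (y₁ i))
      rw [h1, h1, hzy₁, map_mul]
    · change φ (rename Sum.inr (z₂ i)) = j₂ (x₂ i) * φ (rename Sum.inr (y₂ i))
      rw [h2, h2, hzy₂, map_mul]
  have hYu : ∀ i, φ (Y i) ≠ 0 ∧ (φ (Y i))⁻¹ ∈ V := fun i => (not_mem_cen V φ hφV _).1 (hYQ i)
  have hmem : ∀ i, Sum.elim (fun i => j₁ (x₁ i)) (fun i => j₂ (x₂ i)) i ∈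
      lo V.toSubring φ.range := by
    intro i
    refine ⟨φ (Z i), ⟨_, rfl⟩, φ (Y i), ⟨_, rfl⟩, (hYu i).1, (hYu i).2, ?_⟩
    rw [hZY i, mul_inv_cancel_right₀ (hYu i).1]
  refine ⟨lo_le hBV, ?_, hmem, hreg, ic_lo hBV, ?_⟩
  · rintro (i | i)
    · exact (map_ne_zero j₁).2 (hr₁.ne i)
    · exact (map_ne_zero j₂).2 (hr₂.ne i)
  · have hZm : ∀ i, θ (algebraMap _ L (Z i)) ∈ maximalIdeal (lo V.toSubring φ.range) := by
      intro i
      have h3 : algebraMap _ L (Z i) ∈ maximalIdeal L := hInd2.1 (Sum.inl i)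
      exact (mem_max_iff θ hθ _).2 h3
    have h3 : Ind fun i => θ (algebraMap _ L (Z i)) :=
      hN.ind id Function.injective_id hZm
    refine IndN.of_ind id Function.injective_id (fun i _ => ⟨i, rfl⟩) (ind_units h3 fun i => ?_)
    have hYi : IsUnit (θ (algebraMap _ L (Y i))) :=
      (IsLocalization.map_units L (⟨Y i, hYQ i⟩ : Q.primeCompl)).map θ
    obtain ⟨t, ht⟩ := isUnit_iff_exists_inv.1 hYi
    refine ⟨t, isUnit_iff_exists_inv.2 ⟨_, (mul_comm _ _).trans ht⟩, ?_⟩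
    apply Subtype.ext
    have h4 : φ (Y i) * (t : K) = 1 := by
      rw [← hθs]
      exact congrArg Subtype.val ht
    change Sum.elim (fun i => j₁ (x₁ i)) (fun i => j₂ (x₂ i)) i =
      ((θ (algebraMap _ L (Z i)) : lo V.toSubring φ.range) : K) * t
    rw [hθs, hZY i, mul_assoc, h4, mul_one]

end join

end Pool.Agent.Q299.JN
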