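import Pool.Agent.Q299.TD.Cls
import Pool.Agent.TH188.QS.LU

/-!
# Kernels of surjections between regular local rings, and the Jacobian criterion
-/

set_option autoImplicit false

universe u v

namespace Pool.Agent.Q299.JN

open IsLocalRing Pool.Agent.W418.LU2 Pool.Agent.TH188.QS

section ker

variable {B C : Type u} [CommRing B] [IsRegularLocalRing B] [CommRing C] [IsRegularLocalRing C]
  (θ : B →+* C) (hθ : Function.Surjective θ)

include hθ

lemma mem_max_iff (b : B) : θ b ∈ maximalIdeal C ↔ b ∈ maximalIdeal B := by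
  have h1 : (maximalIdeal C).comap θ = maximalIdeal B :=
    IsLocalRing.eq_maximalIdeal (Ideal.comap_isMaximal_of_surjective θ hθ)
  rw [← h1, Ideal.mem_comap]

/-- The kernel is generated by independent elements. -/
theorem exists_ker_gens : ∃ (r : ℕ) (w : Fin r → B), Ideal.span (Set.range w) = RingHom.ker θ ∧
    Ind w := by
  classical
  set K := RingHom.ker θ with hK
  have e : (B ⧸ K) ≃+* C := RingHom.quotientKerEquivOfSurjective hθ
  have hreg : IsRegularLocalRing (B ⧸ K) := IsRegularLocalRing.of_ringEquiv e.symm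
  have hKm : K ≤ maximalIdeal B := by
    intro x hx
    rw [← mem_max_iff θ hθ, RingHom.mem_ker.1 hx]
    exact Ideal.zero_mem _
  have hex : ∃ r : ℕ, ∃ w : Fin r → B, Ideal.span (Set.range w) = K := by
    obtain ⟨s, hs⟩ := (IsNoetherian.noetherian K : K.FG)
    refine ⟨s.card, fun i => (s.equivFin.symm i : B), ?_⟩
    rw [← hs]
    congr 1
    ext x
    constructor
    · rintro ⟨i, rfl⟩
      exact (s.equivFin.symm i).2
    · intro hx
      exact ⟨s.equivFin ⟨x, hx⟩, by simp⟩
  obtain ⟨r, ⟨w, hw⟩, hmin⟩ : ∃ r : ℕ, (∃ w : Fin r → B, Ideal.span (Set.range w) = K) ∧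
      ∀ m < r, ¬ ∃ w : Fin m → B, Ideal.span (Set.range w) = K :=
    ⟨Nat.find hex, Nat.find_spec hex, fun m hm => Nat.find_min hex hm⟩
  have hwK : ∀ i, w i ∈ K := fun i => by
    rw [← hw]
    exact Ideal.subset_span ⟨i, rfl⟩
  refine ⟨r, w, hw, fun i => hKm (hwK i), ?_⟩
  intro c hc i₀
  by_contra hci
  have h1 : ∑ i, c i * w i ∈ K := K.sum_mem fun i _ => K.mul_mem_left _ (hwK i)
  have h2 := Pool.Agent.H379R3.inf_sq_le K ⟨h1, hc⟩
  have h3 : ∑ i, c i * w i ∈ (maximalIdeal B) • Submodule.span B (Set.range w) := by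
    have h4 : Submodule.span B (Set.range w) = K := hw
    rw [h4]
    exact h2
  rw [Submodule.mem_ideal_smul_span_iff_exists_sum] at h3
  obtain ⟨a, ha, hsum⟩ := h3
  have hsum' : ∑ i, a i * w i = ∑ i, c i * w i := by
    rw [← hsum, Finsupp.sum_fintype]
    · rfl
    · intro i
      rw [zero_smul]
  have hunit : IsUnit (c i₀ - a i₀) := by
    by_contra hn
    apply hci
    have h5 : c i₀ - a i₀ ∈ maximalIdeal B := (mem_maximalIdeal _).2 hn
    have h6 := (maximalIdeal B).add_mem h5 (ha i₀)
    rwa [sub_add_cancel] at h6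
  cases r with
  | zero => exact i₀.elim0
  | succ n =>
    refine hmin n (Nat.lt_succ_self n) ⟨fun k => w (i₀.succAbove k), ?_⟩
    apply le_antisymm
    · rw [Ideal.span_le]
      rintro _ ⟨k, rfl⟩
      exact hwK _
    · rw [← hw, Ideal.span_le]
      rintro _ ⟨i, rfl⟩
      by_cases hi : i = i₀
      · subst hi
        have h7 : ∑ l, (c l - a l) * w l = 0 := by
          have h8 : ∑ l, (c l - a l) * w l = ∑ l, c l * w l - ∑ l, a l * w l := by
            rw [← Finset.sum_sub_distrib]
            exact Finset.sum_congr rfl fun l _ => by ring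
          rw [h8, hsum', sub_self]
        rw [Fin.sum_univ_succAbove _ i] at h7
        have h9 : (c i - a i) * w i ∈ Ideal.span (Set.range fun k => w (i.succAbove k)) := by
          rw [eq_neg_of_add_eq_zero_left h7]
          refine (Ideal.neg_mem_iff _).2 (Ideal.sum_mem _ fun k _ => Ideal.mul_mem_left _ _ ?_)
          exact Ideal.subset_span ⟨k, rfl⟩
        exact (Ideal.unit_mul_mem_iff_mem _ hunit).1 h9
      · obtain ⟨k, hk⟩ := Fin.exists_succAbove_eq hi
        exact Ideal.subset_span ⟨k, by rw [← hk]⟩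

/-- Independent elements of the kernel and of the quotient. -/
theorem ind_sum {κ ν : Type} [Fintype κ] [Fintype ν] {w : κ → B} (hwk : ∀ i, θ (w i) = 0)
    (hw : Ind w) {z : ν → B} (hz : Ind fun i => θ (z i)) : Ind (Sum.elim w z) := by
  have hzm : ∀ i, z i ∈ maximalIdeal B := fun i => (mem_max_iff θ hθ _).1 (hz.1 i)
  have hmap : ∀ b ∈ maximalIdeal B ^ 2, θ b ∈ maximalIdeal C ^ 2 := by
    intro b hb
    have h1 : (maximalIdeal B ^ 2).map θ ≤ maximalIdeal C ^ 2 := by
      rw [Ideal.map_pow]
      refine Ideal.pow_right_mono ?_ 2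
      rw [Ideal.map_le_iff_le_comap]
      exact fun x hx => (mem_max_iff θ hθ x).2 hx
    exact h1 (Ideal.mem_map_of_mem θ hb)
  refine ⟨?_, ?_⟩
  · rintro (i | i)
    · exact hw.1 i
    · exact hzm i
  · intro c hc
    rw [Fintype.sum_sum_type] at hc
    simp only [Sum.elim_inl, Sum.elim_inr] at hc
    have h1 := hmap _ hc
    rw [map_add, map_sum, map_sum] at h1
    simp only [map_mul, hwk, mul_zero, Finset.sum_const_zero, zero_add] at h1
    have h2 : ∀ i, c (Sum.inr i) ∈ maximalIdeal B := fun i =>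
      (mem_max_iff θ hθ _).1 (hz.2 (fun i => θ (c (Sum.inr i))) h1 i)
    have h3 : ∑ i, c (Sum.inr i) * z i ∈ maximalIdeal B ^ 2 := by
      rw [pow_two]
      exact Ideal.sum_mem _ fun i _ => Ideal.mul_mem_mul (h2 i) (hzm i)
    have h4 : ∑ i, c (Sum.inl i) * w i ∈ maximalIdeal B ^ 2 := by
      have h5 := Ideal.sub_mem _ hc h3
      rwa [add_sub_cancel_right] at h5
    rintro (i | i)
    · exact hw.2 (fun i => c (Sum.inl i)) h4 i
    · exact h2 i

end ker

section jac

open MvPolynomial

variable {k : Type u} [Field k] [PerfectField k] {m : ℕ}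

/-- The universal derivation of a polynomial ring. -/
lemma D_eq (x : MvPolynomial (Fin m) k) : KaehlerDifferential.D k (MvPolynomial (Fin m) k) x =
    ∑ β, pderiv β x • KaehlerDifferential.D k (MvPolynomial (Fin m) k) (X β) := by
  have h := (KaehlerDifferential.mvPolynomialBasis k (Fin m)).sum_repr
    (KaehlerDifferential.D k (MvPolynomial (Fin m) k) x)
  rw [← h]
  refine Finset.sum_congr rfl fun β _ => ?_
  rw [KaehlerDifferential.mvPolynomialBasis_repr_apply, KaehlerDifferential.mvPolynomialBasis_apply]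

/-- Elements with derivatives in the prime ideal. -/
theorem sq_of_pderiv (q : Ideal (MvPolynomial (Fin m) k)) [q.IsPrime] {x : MvPolynomial (Fin m) k}
    (hx : x ∈ q) (hd : ∀ β, pderiv β x ∈ q) : ∃ s ∉ q, s * x ∈ q ^ 2 := by
  have hker : RingHom.ker (algebraMap (MvPolynomial (Fin m) k) q.ResidueField) = q :=
    Ideal.ker_algebraMap_residueField q
  have hfr : ∀ z : q.ResidueField, ∃ a b : MvPolynomial (Fin m) k,
      algebraMap _ q.ResidueField b ≠ 0 ∧ z * algebraMap _ q.ResidueField b =
        algebraMap _ q.ResidueField a := by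
    intro z
    obtain ⟨y, rfl⟩ := IsLocalRing.residue_surjective z
    obtain ⟨a, b, hab⟩ := IsLocalization.exists_mk'_eq q.primeCompl y
    refine ⟨a, b, ?_, ?_⟩
    · intro h0
      have h1 : (b : MvPolynomial (Fin m) k) ∈ RingHom.ker
        (algebraMap (MvPolynomial (Fin m) k) q.ResidueField) := h0
      rw [hker] at h1
      exact b.2 h1
    · have h1 := IsLocalization.mk'_spec (Localization.AtPrime q) a b
      rw [hab] at h1
      have h2 := congrArg (IsLocalRing.residue (Localization.AtPrime q)) h1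
      rw [map_mul] at h2
      exact h2
  obtain ⟨s, hs, hsx⟩ := sq_of_D (k₀ := k) (P := MvPolynomial (Fin m) k) (L := q.ResidueField)
    h1_perfect hfr (x := x) (by
      have h1 : x ∈ RingHom.ker (algebraMap (MvPolynomial (Fin m) k) q.ResidueField) := by
        rw [hker]; exact hx
      exact h1) (by
      rw [D_eq, hker]
      exact Submodule.sum_mem _ fun β _ => Submodule.smul_mem_smul (hd β) trivial)
  rw [hker] at hsx
  refine ⟨s, fun h0 => hs ?_, hsx⟩
  have h1 : s ∈ RingHom.ker (algebraMap (MvPolynomial (Fin m) k) q.ResidueField) := by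
    rw [hker]; exact h0
  exact h1

end jac

end Pool.Agent.Q299.JN
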