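import Pool.Agent.Q299.JN.Ker

/-!
# Independence at prime ideals of polynomial rings
-/

set_option autoImplicit false

universe u v

namespace Pool.Agent.Q299.JN

open IsLocalRing Pool.Agent.W418.LU2 Pool.Agent.TH188.QS MvPolynomial

/-- Elements which are independent at a prime ideal. -/
def IndAt {S : Type u} [CommRing S] (q : Ideal S) {ι : Type} [Fintype ι] (h : ι → S) : Prop :=
  (∀ i, h i ∈ q) ∧ ∀ (a : ι → S) (s : S), s ∉ q → s * ∑ i, a i * h i ∈ q ^ 2 → ∀ i, a i ∈ q

section loc

variable {S : Type u} [CommRing S] (q : Ideal S) [q.IsPrime] {ι : Type} [Fintype ι] {h : ι → S}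

lemma indAt_of_ind (hi : Ind fun i => algebraMap S (Localization.AtPrime q) (h i)) : IndAt q h := by
  have hm : ∀ x : S, algebraMap S (Localization.AtPrime q) x ∈
      maximalIdeal (Localization.AtPrime q) ↔ x ∈ q := fun x =>
    IsLocalization.AtPrime.to_map_mem_maximal_iff _ q x
  refine ⟨fun i => (hm _).1 (hi.1 i), fun a s hs hmem i => ?_⟩
  refine (hm _).1 (hi.2 (fun i => algebraMap S _ (a i)) ?_ i)
  have h1 : algebraMap S (Localization.AtPrime q) (s * ∑ i, a i * h i) ∈
      maximalIdeal (Localization.AtPrime q) ^ 2 := by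
    rw [← IsLocalization.AtPrime.map_eq_maximalIdeal q (Localization.AtPrime q), ← Ideal.map_pow]
    exact Ideal.mem_map_of_mem _ hmem
  have hu : IsUnit (algebraMap S (Localization.AtPrime q) s) :=
    IsLocalization.map_units (Localization.AtPrime q) (⟨s, hs⟩ : q.primeCompl)
  rw [map_mul] at h1
  have h2 := (Ideal.unit_mul_mem_iff_mem _ hu).1 h1
  rw [map_sum] at h2
  simpa only [map_mul] using h2

lemma ind_of_indAt (hi : IndAt q h) : Ind fun i => algebraMap S (Localization.AtPrime q) (h i) := by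
  classical
  have hm : ∀ x : S, algebraMap S (Localization.AtPrime q) x ∈
      maximalIdeal (Localization.AtPrime q) ↔ x ∈ q := fun x =>
    IsLocalization.AtPrime.to_map_mem_maximal_iff _ q x
  refine ⟨fun i => (hm _).2 (hi.1 i), fun c hc i => ?_⟩
  obtain ⟨b, hb⟩ := IsLocalization.exist_integer_multiples q.primeCompl Finset.univ c
  choose a ha using fun i => hb i (Finset.mem_univ i)
  have hbu : IsUnit (algebraMap S (Localization.AtPrime q) (b : S)) := IsLocalization.map_units _ b
  have ha' : ∀ i, algebraMap S (Localization.AtPrime q) (a i) =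
      algebraMap S (Localization.AtPrime q) (b : S) * c i := by
    intro i
    rw [ha i]
    exact Algebra.smul_def _ _
  have h1 : algebraMap S (Localization.AtPrime q) (∑ i, a i * h i) ∈
      maximalIdeal (Localization.AtPrime q) ^ 2 := by
    have h2 : algebraMap S (Localization.AtPrime q) (∑ i, a i * h i) =
        algebraMap S (Localization.AtPrime q) (b : S) * ∑ i, c i *
          algebraMap S (Localization.AtPrime q) (h i) := by
      rw [map_sum, Finset.mul_sum]
      refine Finset.sum_congr rfl fun i _ => ?_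
      rw [map_mul, ha' i, mul_assoc]
    rw [h2]
    exact Ideal.mul_mem_left _ _ hc
  rw [← IsLocalization.AtPrime.map_eq_maximalIdeal q (Localization.AtPrime q), ← Ideal.map_pow]
    at h1
  obtain ⟨⟨⟨y, hy⟩, t⟩, hyt⟩ := (IsLocalization.mem_map_algebraMap_iff q.primeCompl
    (Localization.AtPrime q)).1 h1
  change algebraMap S (Localization.AtPrime q) (∑ i, a i * h i) *
    algebraMap S (Localization.AtPrime q) (t : S) = algebraMap S (Localization.AtPrime q) y at hyt
  rw [← map_mul] at hyt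
  obtain ⟨d, hd⟩ := (IsLocalization.eq_iff_exists q.primeCompl (Localization.AtPrime q)).1 hyt
  have h3 : ((d : S) * t) * ∑ i, a i * h i ∈ q ^ 2 := by
    have h4 : ((d : S) * t) * ∑ i, a i * h i = d * y := by rw [← hd]; ring
    rw [h4]
    exact Ideal.mul_mem_left _ _ hy
  have h5 := hi.2 a ((d : S) * t) (q.primeCompl.mul_mem d.2 t.2) h3 i
  have h6 := (hm _).2 h5
  rw [ha' i] at h6
  exact (Ideal.unit_mul_mem_iff_mem _ hbu).1 h6

end loc

section minor

variable {k : Type u} [Field k] [PerfectField k] {m : ℕ}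

/-- Independent elements have a minor of the Jacobian matrix outside the prime ideal. -/
theorem exists_minor_at {ι : Type} [Fintype ι] [DecidableEq ι]
    (q : Ideal (MvPolynomial (Fin m) k)) [q.IsPrime] {h : ι → MvPolynomial (Fin m) k}
    (hi : IndAt q h) :
    ∃ g : ι → Fin m, (Matrix.of fun i j => pderiv (g j) (h i)).det ∉ q := by
  classical
  let S := MvPolynomial (Fin m) k
  let L := q.ResidueField
  let r := Fintype.card ι
  let e : ι ≃ Fin r := Fintype.equivFin ι
  have hker : ∀ x : S, algebraMap S L x = 0 ↔ x ∈ q := by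
    intro x
    rw [← RingHom.mem_ker, Ideal.ker_algebraMap_residueField q]
  have hfr : ∀ z : L, ∃ a b : S, b ∉ q ∧ z * algebraMap S L b = algebraMap S L a := by
    intro z
    obtain ⟨y, rfl⟩ := IsLocalRing.residue_surjective z
    obtain ⟨a, b, hab⟩ := IsLocalization.exists_mk'_eq q.primeCompl y
    refine ⟨a, b, b.2, ?_⟩
    have h1 := IsLocalization.mk'_spec (Localization.AtPrime q) a b
    rw [hab] at h1
    have h2 := congrArg (IsLocalRing.residue (Localization.AtPrime q)) h1
    rw [map_mul] at h2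
    exact h2
  obtain ⟨g, hg⟩ := exists_minor (fun (i : Fin r) (β : Fin m) =>
    algebraMap S L (pderiv β (h (e.symm i)))) (by
    intro c hc
    choose a b hb hab using fun i => hfr (c i)
    let Bp : S := ∏ j, b j
    let a' : Fin r → S := fun i => a i * ∏ j ∈ Finset.univ.erase i, b j
    have hBp : Bp ∉ q := by
      intro h0
      obtain ⟨j, -, hj⟩ := (Ideal.IsPrime.prod_mem_iff (p := q)).1 h0
      exact hb j hj
    have ha' : ∀ i, c i * algebraMap S L Bp = algebraMap S L (a' i) := by
      intro i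
      have h1 : Bp = b i * ∏ j ∈ Finset.univ.erase i, b j :=
        (Finset.mul_prod_erase _ _ (Finset.mem_univ i)).symm
      rw [h1, map_mul, ← mul_assoc, hab, ← map_mul]
    let x : S := ∑ i, a' i * h (e.symm i)
    have hx : x ∈ q := q.sum_mem fun i _ => q.mul_mem_left _ (hi.1 _)
    have hd : ∀ β, pderiv β x ∈ q := by
      intro β
      have h1 : pderiv β x = ∑ i, a' i * pderiv β (h (e.symm i)) +
          ∑ i, h (e.symm i) * pderiv β (a' i) := by
        simp only [x]
        rw [map_sum, ← Finset.sum_add_distrib]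
        refine Finset.sum_congr rfl fun i _ => ?_
        rw [Derivation.leibniz, smul_eq_mul, smul_eq_mul]
      rw [h1]
      refine q.add_mem ?_ (q.sum_mem fun i _ => q.mul_mem_right _ (hi.1 _))
      rw [← hker, map_sum]
      have h2 : ∑ i, algebraMap S L (a' i * pderiv β (h (e.symm i))) = algebraMap S L Bp *
          ∑ i, c i * algebraMap S L (pderiv β (h (e.symm i))) := by
        rw [Finset.mul_sum]
        refine Finset.sum_congr rfl fun i _ => ?_
        rw [map_mul, ← ha' i]
        ring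
      rw [h2, hc β, mul_zero]
    obtain ⟨s, hs, hsx⟩ := sq_of_pderiv q hx hd
    have h3 := hi.2 (fun i => a' (e i)) s hs (by
      have h4 : ∑ i, a' (e i) * h i = x := by
        simp only [x]
        rw [← Equiv.sum_comp e.symm]
        simp only [Equiv.apply_symm_apply]
      rw [h4]
      exact hsx)
    funext i
    have h5 := h3 (e.symm i)
    rw [Equiv.apply_symm_apply, ← hker, ← ha' i] at h5
    rcases mul_eq_zero.1 h5 with h6 | h6
    · exact h6
    · exact absurd ((hker _).1 h6) hBp)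
  refine ⟨fun i => g (e i), ?_⟩
  have h1 : (Matrix.of fun i j => pderiv (g (e j)) (h i)) =
      (Matrix.of fun i j : Fin r => pderiv (g j) (h (e.symm i))).submatrix e e := by
    ext i j : 2
    simp only [Matrix.submatrix_apply, Matrix.of_apply, Equiv.symm_apply_apply]
  rw [h1, Matrix.det_submatrix_equiv_self, ← hker, RingHom.map_det]
  exact hg

/-- Derivations of squares. -/
lemma pderiv_sq {σ : Type} {R : Type u} [CommRing R] (Q : Ideal (MvPolynomial σ R)) (β : σ)
    {x : MvPolynomial σ R} (hx : x ∈ Q ^ 2) : pderiv β x ∈ Q := by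
  rw [pow_two] at hx
  refine Submodule.mul_induction_on hx ?_ ?_
  · intro a ha b hb
    rw [Derivation.leibniz, smul_eq_mul, smul_eq_mul]
    exact Q.add_mem (Q.mul_mem_right _ ha) (Q.mul_mem_right _ hb)
  · intro a b ha hb
    rw [map_add]
    exact Q.add_mem ha hb

/-- Independence in products. -/
theorem indAt_join {R : Type u} [CommRing R] {m₁ m₂ : ℕ}
    (Q : Ideal (MvPolynomial (Fin m₁ ⊕ Fin m₂) R))
    [Q.IsPrime] {ι₁ ι₂ : Type} [Fintype ι₁] [Fintype ι₂] [DecidableEq ι₁] [DecidableEq ι₂]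
    {h₁ : ι₁ → MvPolynomial (Fin m₁) R} {h₂ : ι₂ → MvPolynomial (Fin m₂) R} (g₁ : ι₁ → Fin m₁)
    (g₂ : ι₂ → Fin m₂)
    (hg₁ : rename Sum.inl (Matrix.of fun i j => pderiv (g₁ j) (h₁ i)).det ∉ Q)
    (hg₂ : rename Sum.inr (Matrix.of fun i j => pderiv (g₂ j) (h₂ i)).det ∉ Q)
    (hQ₁ : ∀ i, rename Sum.inl (h₁ i) ∈ Q) (hQ₂ : ∀ i, rename Sum.inr (h₂ i) ∈ Q) :
    IndAt Q (Sum.elim (fun i => rename Sum.inl (h₁ i)) (fun i => rename Sum.inr (h₂ i))) := by
  classical
  have hH : ∀ i, Sum.elim (fun i => rename Sum.inl (h₁ i)) (fun i => rename Sum.inr (h₂ i)) i ∈ Q := by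
    rintro (i | i)
    · exact hQ₁ i
    · exact hQ₂ i
  refine ⟨hH, fun a s hs hmem => ?_⟩
  set H : ι₁ ⊕ ι₂ → MvPolynomial (Fin m₁ ⊕ Fin m₂) R :=
    Sum.elim (fun i => rename Sum.inl (h₁ i)) (fun i => rename Sum.inr (h₂ i)) with hHd
  have hx : ∑ i, a i * H i ∈ Q := Q.sum_mem fun i _ => Q.mul_mem_left _ (hH i)
  have key : ∀ β, ∑ i, a i * pderiv β (H i) ∈ Q := by
    intro β
    have h1 := pderiv_sq Q β hmem
    rw [Derivation.leibniz, smul_eq_mul, smul_eq_mul] at h1
    have h2 : s * pderiv β (∑ i, a i * H i) ∈ Q := by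
      have h3 := Q.sub_mem h1 (Q.mul_mem_right (pderiv β s) hx)
      rwa [add_sub_cancel_right] at h3
    have h3 := (Ideal.IsPrime.mem_or_mem ‹Q.IsPrime› h2).resolve_left hs
    have h4 : pderiv β (∑ i, a i * H i) = ∑ i, a i * pderiv β (H i) + ∑ i, H i * pderiv β (a i) := by
      rw [map_sum, ← Finset.sum_add_distrib]
      refine Finset.sum_congr rfl fun i _ => ?_
      rw [Derivation.leibniz, smul_eq_mul, smul_eq_mul]
    rw [h4] at h3
    have h5 : ∑ i, H i * pderiv β (a i) ∈ Q := Q.sum_mem fun i _ => Q.mul_mem_right _ (hH i)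
    have h6 := Q.sub_mem h3 h5
    rwa [add_sub_cancel_right] at h6
  have hcr : ∀ {κ : Type} [Fintype κ] [DecidableEq κ] (b : κ → MvPolynomial (Fin m₁ ⊕ Fin m₂) R)
      (M : Matrix κ κ (MvPolynomial (Fin m₁ ⊕ Fin m₂) R)), M.det ∉ Q →
      (∀ j, ∑ i, b i * M i j ∈ Q) → ∀ i, b i ∈ Q := by
    intro κ _ _ b M hM hb i
    have h1 : (M.map (Ideal.Quotient.mk Q)).det ≠ 0 := by
      rw [← RingHom.mapMatrix_apply, ← RingHom.map_det]
      exact fun h => hM (Ideal.Quotient.eq_zero_iff_mem.1 h)
    have h2 : Matrix.vecMul (fun i => Ideal.Quotient.mk Q (b i)) (M.map (Ideal.Quotient.mk Q)) = 0 := by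
      funext j
      have h3 := Ideal.Quotient.eq_zero_iff_mem.2 (hb j)
      rw [map_sum] at h3
      simpa [Matrix.vecMul, dotProduct] using h3
    have h3 := Matrix.eq_zero_of_vecMul_eq_zero h1 h2
    exact Ideal.Quotient.eq_zero_iff_mem.1 (congrFun h3 i)
  have hz1 : ∀ (β : Fin m₁) (x : MvPolynomial (Fin m₂) R),
      pderiv (Sum.inl β : Fin m₁ ⊕ Fin m₂) (rename Sum.inr x) = 0 := by
    intro β x
    refine pderiv_eq_zero_of_notMem_vars fun h => ?_
    obtain ⟨y, -, hy⟩ := mem_vars_rename _ _ h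
    exact absurd hy (by simp)
  have hz2 : ∀ (β : Fin m₂) (x : MvPolynomial (Fin m₁) R),
      pderiv (Sum.inr β : Fin m₁ ⊕ Fin m₂) (rename Sum.inl x) = 0 := by
    intro β x
    refine pderiv_eq_zero_of_notMem_vars fun h => ?_
    obtain ⟨y, -, hy⟩ := mem_vars_rename _ _ h
    exact absurd hy (by simp)
  rintro (i | i)
  · refine hcr (fun i => a (Sum.inl i))
      (Matrix.of fun i j => rename Sum.inl (pderiv (g₁ j) (h₁ i))) ?_ ?_ i
    · have h1 : (Matrix.of fun i j => rename (Sum.inl : Fin m₁ → Fin m₁ ⊕ Fin m₂)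
          (pderiv (g₁ j) (h₁ i))) = (rename (Sum.inl : Fin m₁ → Fin m₁ ⊕ Fin m₂)
          (R := R)).toRingHom.mapMatrix (Matrix.of fun i j => pderiv (g₁ j) (h₁ i)) := rfl
      rw [h1, ← RingHom.map_det]
      exact hg₁
    · intro j
      have h1 := key (Sum.inl (g₁ j))
      rw [Fintype.sum_sum_type] at h1
      simp only [hHd, Sum.elim_inl, Sum.elim_inr, hz1, mul_zero, Finset.sum_const_zero, add_zero,
        pderiv_rename Sum.inl_injective] at h1
      exact h1
  · refine hcr (fun i => a (Sum.inr i))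
      (Matrix.of fun i j => rename Sum.inr (pderiv (g₂ j) (h₂ i))) ?_ ?_ i
    · have h1 : (Matrix.of fun i j => rename (Sum.inr : Fin m₂ → Fin m₁ ⊕ Fin m₂)
          (pderiv (g₂ j) (h₂ i))) = (rename (Sum.inr : Fin m₂ → Fin m₁ ⊕ Fin m₂)
          (R := R)).toRingHom.mapMatrix (Matrix.of fun i j => pderiv (g₂ j) (h₂ i)) := rfl
      rw [h1, ← RingHom.map_det]
      exact hg₂
    · intro j
      have h1 := key (Sum.inr (g₂ j))
      rw [Fintype.sum_sum_type] at h1
      simp only [hHd, Sum.elim_inl, Sum.elim_inr, hz2, mul_zero, Finset.sum_const_zero, zero_add,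
        pderiv_rename Sum.inr_injective] at h1
      exact h1

end minor

end Pool.Agent.Q299.JN
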