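import Pool.Agent.Q299.JN.Cls

/-!
# The class of valuations which is closed under joins, composition and towers without defect
-/

set_option autoImplicit false

universe u v

namespace Pool.Agent.Q299.JN

open IsLocalRing Pool.Agent.W418.LU2 Pool.Agent.TH188.QS Pool.Agent.H176.DT
open Pool.Agent.Q299.TD (AllGP IsFinitelyGenerated IsModel gp_of_su noe allGP_comp tower_gp)
open Pool.Agent.Results.MP_5b7a2c_ag.KeyPolynomialTowers (Tower IsLogUniformizable)
open Pool.Agent.Results.MP_5b7a2c_ag.DiscreteValuations (adjoined IsDivergent IsComposite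
  IsStepwiseDivergent)

/-- The valuation ring `V` of `K` is the join of its restrictions to the function fields `E₁` and
`E₂` over `k`: the field `K` is the compositum of the linearly disjoint fields `E₁` and `E₂`, and
the value of `z ∈ E₁ ⊗ E₂` is the tensor product norm: `z` is a sum of products `a i * b i`,
`a i ∈ E₁`, `b i ∈ E₂`, whose values are at most that of `z` (in the multiplicative notation
of Mathlib: `v(z) ≤ max v(a i * b i)` holds for all such sums). -/
structure IsJoin {k E₁ E₂ K : Type u} [Field k] [Field E₁] [Field E₂] [Field K] (ρ₂ : k →+* E₂)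
    (j₁ : E₁ →+* K) (j₂ : E₂ →+* K) (V : ValuationSubring K) : Prop where
  compositum : ∀ z : K, z ∈ Subfield.closure (Set.range j₁ ∪ Set.range j₂)
  linearlyDisjoint : ∀ (n : ℕ) (a : Fin n → E₁) (b : Fin n → E₂),
    (∀ c : Fin n → k, ∑ i, ρ₂ (c i) * b i = 0 → c = 0) →
    ∑ i, j₁ (a i) * j₂ (b i) = 0 → a = 0
  norm : ∀ z ∈ Subring.closure (Set.range j₁ ∪ Set.range j₂), ∃ (n : ℕ) (a : Fin n → E₁)
    (b : Fin n → E₂), z = ∑ i, j₁ (a i) * j₂ (b i) ∧
      ∀ i, V.valuation (j₁ (a i) * j₂ (b i)) ≤ V.valuation z

lemma IsJoin.isJn {k E₁ E₂ K : Type u} [Field k] [Field E₁] [Field E₂] [Field K] {ρ₂ : k →+* E₂}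
    {j₁ : E₁ →+* K} {j₂ : E₂ →+* K} {V : ValuationSubring K} (h : IsJoin ρ₂ j₁ j₂ V) :
    IsJn ρ₂ j₁ j₂ V := by
  refine ⟨h.linearlyDisjoint, h.norm, fun z => ?_⟩
  have h1 := h.compositum z
  rw [← Subfield.closure_eq (Subfield.closure (Set.range j₁ ∪ Set.range j₂))] at h1
  obtain ⟨a, ha, b, hb, h2⟩ := Subfield.mem_closure_iff.1 (h.compositum z)
  by_cases hb0 : b = 0
  · refine ⟨0, Subring.zero_mem _, 1, Subring.one_mem _, one_ne_zero, ?_⟩
    rw [← h2, hb0, div_zero, zero_mul]
  · exact ⟨a, ha, b, hb, hb0, by rw [← h2, div_eq_mul_inv]⟩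

/-- The smallest class of valuation rings `V` of fields `K` over the field `k` which contains the
trivial valuations and the discrete valuations of arbitrary finite rank (more generally, the
composites of `n` valuations each of which is discrete of rank one or divergent on all `k`-algebras
of finite type), the divergent valuations, and the valuations which are log uniformizable on all
`k`-algebras of finite type in `V` with fraction field `K` (by Cossart and Piltant, all valuations
of function fields of transcendence degree at most `3`), and which is closed under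

* composition: `V` is the composite of `V₁` and a valuation ring `W` of the residue field of `V₁`,
  the class contains `V₁` and `W ∩ F` for every field `F` in this residue field which is finitely
  generated over `k`;
* towers without defect: `K` is reached from a subfield `E`, finitely generated over `k`, by
  finitely many steps of the following kinds, and the class contains `V ∩ E`: transcendental
  steps `L ⊂ L(t)` without limit key polynomials, and finite extensions without defect;
* joins: `V` is the join of its restrictions to the function fields `E₁` and `E₂`, and the class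
  contains `V ∩ E₁` and `V ∩ E₂`. -/
inductive IsReachedJ (k : Type u) [Field k] :
    ∀ {K : Type u} [Field K], (k →+* K) → ValuationSubring K → Prop
  /-- The composites of `n` discrete or divergent valuations (for example, the discrete valuations
  of rank `n`, or the trivial valuations if `n = 0`). -/
  | stepwise {K : Type u} [Field K] (n : ℕ) (ρ : k →+* K) (V : ValuationSubring K) :
    IsStepwiseDivergent k n ρ V → IsReachedJ k ρ V
  /-- The divergent valuations. -/
  | divergent {K : Type u} [Field K] (ρ : k →+* K) (V : ValuationSubring K) :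
    (∀ T : Set K, T.Finite → IsModel V (adjoined ρ T) → IsDivergent V (adjoined ρ T)) →
    IsReachedJ k ρ V
  /-- The valuations which are known to be log uniformizable. -/
  | uniformizable {K : Type u} [Field K] (ρ : k →+* K) (V : ValuationSubring K) :
    (∀ T : Set K, T.Finite → IsModel V (adjoined ρ T) → IsLogUniformizable V (adjoined ρ T)) →
    IsReachedJ k ρ V
  /-- The composites of two valuations. -/
  | composite {K : Type u} [Field K] (ρ : k →+* K) (V V₁ : ValuationSubring K)
    (W : ValuationSubring (ResidueField V₁)) (hρ : ∀ a, ρ a ∈ V₁.toSubring) :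
    IsComposite V V₁ W → IsReachedJ k ρ V₁ →
    (∀ (F : Type u) [Field F] (j : F →+* ResidueField V₁) (σ : k →+* F),
      j.comp σ = (residue V₁).comp (ρ.codRestrict V₁.toSubring hρ) → IsFinitelyGenerated σ →
      IsReachedJ k σ (W.comap j)) → IsReachedJ k ρ V
  /-- The towers without defect. -/
  | tower {E K : Type u} [Field E] [Field K] [Algebra E K] (ρ : k →+* E)
    (V : ValuationSubring K) : IsFinitelyGenerated ρ →
    IsReachedJ k ρ (V.comap (algebraMap E K)) → Tower E V ⊤ →
    IsReachedJ k ((algebraMap E K).comp ρ) V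
  /-- The joins. -/
  | join {E₁ E₂ K : Type u} [Field E₁] [Field E₂] [Field K] (ρ₁ : k →+* E₁) (ρ₂ : k →+* E₂)
    (j₁ : E₁ →+* K) (j₂ : E₂ →+* K) (V : ValuationSubring K) :
    (∀ c, j₁ (ρ₁ c) = j₂ (ρ₂ c)) → IsFinitelyGenerated ρ₁ → IsFinitelyGenerated ρ₂ →
    IsReachedJ k ρ₁ (V.comap j₁) → IsReachedJ k ρ₂ (V.comap j₂) → IsJoin ρ₂ j₁ j₂ V →
    IsReachedJ k (j₁.comp ρ₁) V

/-- The valuations in the class are in general position on all models. -/
theorem allGP_of_isReachedJ {k : Type u} [Field k] [PerfectField k] {K : Type u} [Field K]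
    (ρ : k →+* K) (V : ValuationSubring K) (h : IsReachedJ k ρ V) : AllGP ρ V := by
  have hR : HJ k := hj_field
  induction h with
  | stepwise n ρ V hV =>
    intro T hT hM
    exact gp_sd hR n V ρ hV.sd T hT hM.1
  | divergent ρ V hV =>
    intro T hT hM
    exact (gp_div hR ρ hT hM.1 (hV T hT hM).dv).1
  | uniformizable ρ V hV =>
    intro T hT hM
    have hN := noe hR ρ hT
    exact gp_of_su (Pool.Agent.H176.DT.p_base V _ hM (hV T hT hM))
  | composite ρ V V₁ W hρ hc _ _ ih₁ ih₂ =>
    exact allGP_comp hR ρ V V₁ W hρ hc ih₁ fun F _ j σ hj hF => ih₂ F j σ hj hF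
  | tower ρ V hE _ hK ih => exact tower_gp hR ρ V hE ih hK
  | join ρ₁ ρ₂ j₁ j₂ V hC hE₁ hE₂ _ _ hJ ih₁ ih₂ =>
    exact allGP_join ρ₁ ρ₂ j₁ j₂ hC V hJ.isJn hE₁ hE₂ ih₁ ih₂

/-- The valuations in the class are log uniformizable on all models. -/
theorem logUnif_of_isReachedJ {k : Type u} [Field k] [PerfectField k] {K : Type u} [Field K]
    (ρ : k →+* K) (V : ValuationSubring K) (h : IsReachedJ k ρ V) (T : Set K) (hT : T.Finite)
    (hM : IsModel V (adjoined ρ T)) : LogUnif V (adjoined ρ T) := by
  have hN : IsNoetherianRing (adjoined ρ T) := noe (hj_field (k := k)) ρ hT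
  exact (allGP_of_isReachedJ ρ V h T hT hM).logUnif hM.1

end Pool.Agent.Q299.JN
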